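import Pool.Agent.H468.X15T.Bsd

/-!
# Proportions in the family of the twists of `X_0(15)`
-/

set_option autoImplicit false
set_option linter.all false

open Filter Topology

namespace Pool.Agent.H468.X15.DX

open Pool.Agent.H757_X15.DD (Fm Crit c1 t_LA1 t_DEN2)

/-- the family: the squarefree numbers `≡ 1` or `49` modulo `60` -/
def Family (D : ℕ) : Prop := Squarefree D ∧ (D % 60 = 1 ∨ D % 60 = 49)

open Classical in
/-- the number of the `D ≤ X` of the family with the property `P` -/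
noncomputable def num (P : ℕ → Prop) (X : ℕ) : ℕ :=
  ((Finset.Icc 1 X).filter fun D => Family D ∧ P D).card

/-- the constant `(1 - 1/2) (1 - 1/4) (1 - 1/8) ⋯ = 0.2887...` -/
noncomputable def c : ℝ := ∏' i : ℕ, (1 - (1 / 2 : ℝ) ^ (i + 1))

lemma c_bounds : 0.2887 < c ∧ c < 0.2888 := t_LA1.2.2.2

lemma card_iff {s : Finset ℕ} {p q : ℕ → Prop} (ip : DecidablePred p) (iq : DecidablePred q)
    (h : ∀ a, p a ↔ q a) : (@Finset.filter ℕ p ip s).card = (@Finset.filter ℕ q iq s).card := by
  have hpq : p = q := funext fun a => propext (h a)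
  subst hpq
  congr

lemma dens : Tendsto (fun X : ℕ => (num (fun _ => True) X : ℝ) / X) atTop
    (𝓝 (5 / (16 * Real.pi ^ 2))) := by
  have h := t_DEN2
  refine h.congr fun X => ?_
  congr 2
  exact card_iff _ _ fun D => ⟨fun h => ⟨h, trivial⟩, fun h => h.1⟩

open Classical in
/-- the elements counted by `num` -/
noncomputable def fam (P : ℕ → Prop) (X : ℕ) : Finset ℕ :=
  (Finset.Icc 1 X).filter fun D => Family D ∧ P D

lemma num_eq (P : ℕ → Prop) (X : ℕ) : num P X = (fam P X).card := rfl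

lemma mem_fam {P : ℕ → Prop} {X D : ℕ} : D ∈ fam P X ↔ D ∈ Finset.Icc 1 X ∧ Family D ∧ P D := by
  simp only [fam, Finset.mem_filter]

lemma num_mono {P Q : ℕ → Prop} (X : ℕ) (h : ∀ D, Family D → P D → Q D) : num P X ≤ num Q X := by
  rw [num_eq, num_eq]
  refine Finset.card_le_card fun D hD => ?_
  rw [mem_fam] at hD ⊢
  exact ⟨hD.1, hD.2.1, h D hD.2.1 hD.2.2⟩

lemma num_or {P Q : ℕ → Prop} (X : ℕ) : num (fun D => P D ∨ Q D) X ≤ num P X + num Q X := by
  rw [num_eq, num_eq, num_eq]
  refine le_trans (Finset.card_le_card ?_) (Finset.card_union_le _ _)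
  intro D hD
  rw [mem_fam] at hD
  rw [Finset.mem_union, mem_fam, mem_fam]
  rcases hD.2.2 with h | h
  · exact Or.inl ⟨hD.1, hD.2.1, h⟩
  · exact Or.inr ⟨hD.1, hD.2.1, h⟩

lemma num_mem (T : Finset ℕ) (X : ℕ) : num (fun D => D ∈ T) X ≤ T.card := by
  rw [num_eq]
  refine Finset.card_le_card fun D hD => ?_
  rw [mem_fam] at hD
  exact hD.2.2

lemma prop_c : Tendsto (fun X : ℕ => (num Crit X : ℝ) / (num (fun _ => True) X : ℝ)) atTop (𝓝 c) := by
  have h := Pool.Agent.H757_X15.DD.t_DEN
  refine h.congr fun X => ?_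
  congr 2
  · exact card_iff _ _ fun D => ⟨fun h => ⟨⟨h.1, h.2.1⟩, h.2.2⟩, fun h => ⟨h.1.1, h.1.2, h.2⟩⟩
  · exact card_iff _ _ fun D => ⟨fun h => ⟨h, trivial⟩, fun h => h.1⟩

lemma num_atTop : Tendsto (fun X : ℕ => (num (fun _ => True) X : ℝ)) atTop atTop := by
  have h1 : Tendsto (fun X : ℕ => (num (fun _ => True) X : ℝ) / X * X) atTop atTop :=
    dens.pos_mul_atTop (by positivity) tendsto_natCast_atTop_atTop
  refine h1.congr' ?_
  filter_upwards [eventually_gt_atTop 0] with X hX
  have : (X : ℝ) ≠ 0 := by exact_mod_cast hX.ne'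
  field_simp

lemma num_near {P Q : ℕ → Prop} (h : ∀ D, Family D → D ≠ 1 → P D → Q D) (X : ℕ) :
    num P X ≤ num Q X + 1 := by
  refine le_trans (num_mono (Q := fun D => Q D ∨ D ∈ ({1} : Finset ℕ)) X fun D hD hP => ?_)
    (le_trans (num_or X) (Nat.add_le_add_left (num_mem {1} X) _))
  by_cases h1 : D = 1
  · exact Or.inr (Finset.mem_singleton.2 h1)
  · exact Or.inl (h D hD h1 hP)

/-- the proportion of a property which is equivalent to the criterion -/
theorem prop_of {P : ℕ → Prop} (hP : ∀ D, Family D → D ≠ 1 → (P D ↔ Crit D)) :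
    Tendsto (fun X : ℕ => (num P X : ℝ) / (num (fun _ => True) X : ℝ)) atTop (𝓝 c) := by
  have h0 : Tendsto (fun X : ℕ => 1 / (num (fun _ => True) X : ℝ)) atTop (𝓝 0) :=
    tendsto_const_nhds.div_atTop num_atTop
  have h1 : Tendsto (fun X : ℕ => ((num P X : ℝ) - num Crit X) /
      (num (fun _ => True) X : ℝ)) atTop (𝓝 0) := by
    refine squeeze_zero_norm (fun X => ?_) h0
    rw [norm_div, Real.norm_eq_abs, Real.norm_eq_abs, Nat.abs_cast]
    refine div_le_div_of_nonneg_right ?_ (Nat.cast_nonneg _)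
    have k1 := num_near (P := P) (Q := Crit) (fun D hD h1 h => (hP D hD h1).1 h) X
    have k2 := num_near (P := Crit) (Q := P) (fun D hD h1 h => (hP D hD h1).2 h) X
    have k1' : (num P X : ℝ) ≤ num Crit X + 1 := by exact_mod_cast k1
    have k2' : (num Crit X : ℝ) ≤ num P X + 1 := by exact_mod_cast k2
    rw [abs_le]
    constructor <;> linarith
  have h2 := prop_c.add h1
  rw [add_zero] at h2
  refine h2.congr fun X => ?_
  rw [← add_div]
  congr 1
  ring

/-- the order of a finite commutative group without elements of order two is odd -/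
theorem odd_card {G : Type} [AddCommGroup G] [Finite G] (h : ∀ x : G, x + x = 0 → x = 0) :
    Odd (Nat.card G) := by
  rw [← Nat.not_even_iff_odd]
  intro he
  haveI := Fintype.ofFinite G
  haveI : Fact (Nat.Prime 2) := ⟨Nat.prime_two⟩
  rw [Nat.card_eq_fintype_card] at he
  obtain ⟨x, hx⟩ := exists_prime_addOrderOf_dvd_card 2 he.two_dvd
  have h1 : x + x = 0 := by
    rw [← two_nsmul, ← hx]
    exact addOrderOf_nsmul_eq_zero x
  rw [h x h1, addOrderOf_zero] at hx
  norm_num at hx

end Pool.Agent.H468.X15.DX
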