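import Pool.Graph.R_pool_sql_team_seeded_620a6dc7.H757_X15.MT.OMEGA
import Pool.Graph.R_pool_sql_team_seeded_620a6dc7.H757_X15.MT.Sym15

/-!
# The value of the modular symbol of `X_0(15)` at `0`: `L(E, 1) = Ω / 8`
-/

set_option autoImplicit false
set_option linter.all false

open Complex Filter Topology Set UpperHalfPlane MeasureTheory

namespace Pool.Agent.H468.X15

open Pool.Agent.H757_X15
open Pool.Agent.W97.MT (qq norm_qq norm_qq_lt Q_ne)
open Pool.Agent.W97.TW (Q)
open Pool.Agent.Y700 (psi Omega)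

/-! ### the product -/

theorem Q_real {x : ℝ} (h0 : 0 < x) (h1 : x < 1) : (Q (x : ℂ)).im = 0 ∧ 0 ≤ (Q (x : ℂ)).re ∧
    (Q (x : ℂ)).re ≤ 1 - x := by
  have hx : ‖(x : ℂ)‖ < 1 := by
    rw [Complex.norm_real, Real.norm_eq_abs, abs_of_pos h0]
    exact h1
  have hp : HasProd (fun n : ℕ => 1 - (x : ℂ) ^ (n + 1)) (Q (x : ℂ)) :=
    (ModularForm.multipliable_one_sub_pow hx).hasProd
  have ht : Tendsto (fun s : Finset ℕ => ∏ i ∈ s, (1 - (x : ℂ) ^ (i + 1))) atTop
      (𝓝 (Q (x : ℂ))) := hp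
  have he : ∀ s : Finset ℕ, ∏ i ∈ s, (1 - (x : ℂ) ^ (i + 1)) =
      ((∏ i ∈ s, (1 - x ^ (i + 1)) : ℝ) : ℂ) := by
    intro s
    push_cast
    rfl
  have hpos : ∀ i : ℕ, 0 ≤ 1 - x ^ (i + 1) ∧ 1 - x ^ (i + 1) ≤ 1 := by
    intro i
    have h2 : x ^ (i + 1) ≤ 1 := pow_le_one₀ h0.le h1.le
    have h3 : 0 ≤ x ^ (i + 1) := by positivity
    exact ⟨by linarith, by linarith⟩
  refine ⟨?_, ?_, ?_⟩
  · have h2 := (Complex.continuous_im.tendsto _).comp ht
    have h3 : Tendsto (fun s : Finset ℕ => (0 : ℝ)) atTop (𝓝 (Q (x : ℂ)).im) := by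
      refine h2.congr fun s => ?_
      simp only [Function.comp]
      rw [he, Complex.ofReal_im]
    exact (tendsto_nhds_unique h3 tendsto_const_nhds)
  · have h2 := (Complex.continuous_re.tendsto _).comp ht
    refine ge_of_tendsto' h2 fun s => ?_
    simp only [Function.comp]
    rw [he, Complex.ofReal_re]
    exact Finset.prod_nonneg fun i _ => (hpos i).1
  · have h2 := (Complex.continuous_re.tendsto _).comp ht
    refine le_of_tendsto h2 ?_
    filter_upwards [eventually_ge_atTop ({0} : Finset ℕ)] with s hs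
    simp only [Function.comp]
    rw [he, Complex.ofReal_re]
    have h0s : 0 ∈ s := hs (Finset.mem_singleton_self 0)
    rw [← Finset.mul_prod_erase s _ h0s]
    have h4 : ∏ i ∈ s.erase 0, (1 - x ^ (i + 1)) ≤ 1 :=
      Finset.prod_le_one (fun i _ => (hpos i).1) fun i _ => (hpos i).2
    have h5 : 0 ≤ 1 - x := by linarith
    have e : 1 - x ^ (0 + 1) = 1 - x := by ring
    rw [e]
    nlinarith

/-- the value of `ff` on the imaginary axis -/
theorem ff_axis {t : ℝ} (ht : 0 < t) : (ff ((0 : ℚ) + t * Complex.I)).im = 0 ∧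
    0 ≤ (ff ((0 : ℚ) + t * Complex.I)).re ∧
    (ff ((0 : ℚ) + t * Complex.I)).re ≤ Real.exp (-(2 * Real.pi) * t) -
      Real.exp (-(4 * Real.pi) * t) := by
  have hpi := Real.pi_pos
  obtain ⟨x, hx⟩ : ∃ x : ℝ, x = Real.exp (-(2 * Real.pi) * t) := ⟨_, rfl⟩
  have hx0 : 0 < x := by rw [hx]; exact Real.exp_pos _
  have hx1 : x < 1 := by
    rw [hx, Real.exp_lt_one_iff]
    nlinarith [mul_pos hpi ht]
  have hq : qq (((0 : ℚ) : ℂ) + t * Complex.I) = (x : ℂ) := by
    unfold qq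
    rw [hx, Complex.ofReal_exp]
    congr 1
    push_cast
    linear_combination (2 * Real.pi * (t : ℂ)) * Complex.I_mul_I
  have hpow : ∀ n : ℕ, n ≠ 0 → 0 < x ^ n ∧ x ^ n < 1 := fun n hn =>
    ⟨by positivity, pow_lt_one₀ hx0.le hx1 hn⟩
  obtain ⟨i1, p1, l1⟩ := Q_real hx0 hx1
  obtain ⟨i3, p3, l3⟩ := Q_real (hpow 3 (by norm_num)).1 (hpow 3 (by norm_num)).2
  obtain ⟨i5, p5, l5⟩ := Q_real (hpow 5 (by norm_num)).1 (hpow 5 (by norm_num)).2
  obtain ⟨i15, p15, l15⟩ := Q_real (hpow 15 (by norm_num)).1 (hpow 15 (by norm_num)).2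
  have c1 : Q (x : ℂ) = ((Q (x : ℂ)).re : ℂ) := by
    apply Complex.ext
    · rw [Complex.ofReal_re]
    · rw [Complex.ofReal_im, i1]
  have c3 : Q ((x : ℂ) ^ 3) = ((Q ((x ^ 3 : ℝ) : ℂ)).re : ℂ) := by
    rw [← Complex.ofReal_pow]
    apply Complex.ext
    · rw [Complex.ofReal_re]
    · rw [Complex.ofReal_im, i3]
  have c5 : Q ((x : ℂ) ^ 5) = ((Q ((x ^ 5 : ℝ) : ℂ)).re : ℂ) := by
    rw [← Complex.ofReal_pow]
    apply Complex.ext
    · rw [Complex.ofReal_re]
    · rw [Complex.ofReal_im, i5]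
  have c15 : Q ((x : ℂ) ^ 15) = ((Q ((x ^ 15 : ℝ) : ℂ)).re : ℂ) := by
    rw [← Complex.ofReal_pow]
    apply Complex.ext
    · rw [Complex.ofReal_re]
    · rw [Complex.ofReal_im, i15]
  have hff : ff (((0 : ℚ) : ℂ) + t * Complex.I) = ((x * ((Q (x : ℂ)).re * (Q ((x ^ 3 : ℝ) : ℂ)).re *
      (Q ((x ^ 5 : ℝ) : ℂ)).re * (Q ((x ^ 15 : ℝ) : ℂ)).re) : ℝ) : ℂ) := by
    rw [ff_q, hq]
    unfold phi
    rw [c3, c5, c15, c1]
    push_cast
    rfl
  rw [hff, Complex.ofReal_im, Complex.ofReal_re]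
  refine ⟨rfl, by positivity, ?_⟩
  have e : Real.exp (-(2 * Real.pi) * t) - Real.exp (-(4 * Real.pi) * t) = x * (1 - x) := by
    have h4 : Real.exp (-(4 * Real.pi) * t) = x ^ 2 := by
      rw [hx, ← Real.exp_nat_mul]
      congr 1
      push_cast
      ring
    rw [h4, ← hx]
    ring
  rw [e]
  apply mul_le_mul_of_nonneg_left _ hx0.le
  have b3 : (Q ((x ^ 3 : ℝ) : ℂ)).re ≤ 1 := by linarith [(hpow 3 (by norm_num)).1]
  have b5 : (Q ((x ^ 5 : ℝ) : ℂ)).re ≤ 1 := by linarith [(hpow 5 (by norm_num)).1]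
  have b15 : (Q ((x ^ 15 : ℝ) : ℂ)).re ≤ 1 := by linarith [(hpow 15 (by norm_num)).1]
  calc (Q (x : ℂ)).re * (Q ((x ^ 3 : ℝ) : ℂ)).re * (Q ((x ^ 5 : ℝ) : ℂ)).re *
        (Q ((x ^ 15 : ℝ) : ℂ)).re ≤ (Q (x : ℂ)).re * 1 * 1 * 1 := by
        gcongr
    _ ≤ 1 - x := by linarith

/-- `0 ≤ L(E, 1) ≤ 1/2` -/
theorem II_bound : 0 ≤ (II 0).re ∧ (II 0).re ≤ 1 / 2 := by
  have hpi := Real.pi_pos
  have hint : ∀ a : ℝ, 0 < a → IntegrableOn (fun t : ℝ => Real.exp (-a * t)) (Ioi 0) := fun a ha =>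
    integrableOn_exp_mul_Ioi (by linarith) 0
  have hval : ∀ a : ℝ, 0 < a → ∫ t in Ioi (0 : ℝ), Real.exp (-a * t) = 1 / a := by
    intro a ha
    rw [integral_exp_mul_Ioi (by linarith) 0, mul_zero, Real.exp_zero]
    field_simp
  obtain ⟨s, L, Op, Om, hOp, hOm, g2, g3, hL, hs, hr⟩ := t_SYMB
  have hI := (t_INTEG L g2 g3).2.2.1 0
  have hre : (II 0).re = 2 * Real.pi * ∫ t in Ioi (0 : ℝ), (ff (((0 : ℚ) : ℂ) + t * Complex.I)).re := by
    unfold II
    have h1 : (2 * (Real.pi : ℂ)) = ((2 * Real.pi : ℝ) : ℂ) := by push_cast; rfl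
    rw [h1, Complex.re_ofReal_mul]
    congr 1
    exact (integral_re hI).symm
  have hIr : IntegrableOn (fun t : ℝ => (ff (((0 : ℚ) : ℂ) + t * Complex.I)).re) (Ioi 0) := hI.re
  rw [hre]
  constructor
  · refine mul_nonneg (by positivity) (setIntegral_nonneg measurableSet_Ioi fun t ht => ?_)
    exact (ff_axis ht).2.1
  · have h1 : ∫ t in Ioi (0 : ℝ), (ff (((0 : ℚ) : ℂ) + t * Complex.I)).re ≤
        ∫ t in Ioi (0 : ℝ), (Real.exp (-(2 * Real.pi) * t) - Real.exp (-(4 * Real.pi) * t)) := by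
      refine setIntegral_mono_on hIr ((hint _ (by positivity)).sub (hint _ (by positivity)))
        measurableSet_Ioi fun t ht => ?_
      exact (ff_axis ht).2.2
    rw [integral_sub (hint _ (by positivity)) (hint _ (by positivity)), hval _ (by positivity),
      hval _ (by positivity)] at h1
    calc 2 * Real.pi * ∫ t in Ioi (0 : ℝ), (ff (((0 : ℚ) : ℂ) + t * Complex.I)).re
        ≤ 2 * Real.pi * (1 / (2 * Real.pi) - 1 / (4 * Real.pi)) :=
          mul_le_mul_of_nonneg_left h1 (by positivity)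
      _ = 1 / 2 := by
          field_simp
          norm_num

/-! ### the real period -/

theorem psi_one (x : ℝ) : psi (WD 1) x = (x - 3) * (x + 1) * (4 * x + 13) := by
  rw [psi_WD 1 (by norm_num)]
  push_cast
  ring

/-- a lower bound for the real period -/
theorem omega_one (hpos : 0 < Omega (WD 1)) : 4 / 3 < Omega (WD 1) := by
  have hint : IntegrableOn (fun x => 2 / Real.sqrt (psi (WD 1) x)) {x : ℝ | 0 < psi (WD 1) x} := by
    by_contra h
    have h1 : Omega (WD 1) = 0 := integral_undef h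
    rw [h1] at hpos
    exact lt_irrefl _ hpos
  obtain ⟨A, hA⟩ : ∃ A : Set ℝ, A = Ioc (-3 : ℝ) (-1 - 1 / 100) := ⟨_, rfl⟩
  obtain ⟨B, hB⟩ : ∃ B : Set ℝ, B = Ioc (3 : ℝ) (387 / 4) := ⟨_, rfl⟩
  have hAm : MeasurableSet A := by rw [hA]; exact measurableSet_Ioc
  have hBm : MeasurableSet B := by rw [hB]; exact measurableSet_Ioc
  have hAs : A ⊆ {x : ℝ | 0 < psi (WD 1) x} := by
    intro x hx
    rw [hA] at hx
    obtain ⟨h1, h2⟩ := hx
    show 0 < psi (WD 1) x
    rw [psi_one]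
    have h3 : 0 < (3 - x) * (-1 - x) := mul_pos (by linarith) (by linarith)
    have h4 : 0 < 4 * x + 13 := by linarith
    have h5 : (x - 3) * (x + 1) * (4 * x + 13) = (3 - x) * (-1 - x) * (4 * x + 13) := by ring
    rw [h5]
    exact mul_pos h3 h4
  have hBs : B ⊆ {x : ℝ | 0 < psi (WD 1) x} := by
    intro x hx
    rw [hB] at hx
    obtain ⟨h1, h2⟩ := hx
    show 0 < psi (WD 1) x
    rw [psi_one]
    exact mul_pos (mul_pos (by linarith) (by linarith)) (by linarith)
  have hdis : Disjoint A B := by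
    rw [Set.disjoint_left, hA, hB]
    intro x h1 h2
    have := h1.2
    have := h2.1
    linarith
  have hnn : ∀ x : ℝ, 0 ≤ 2 / Real.sqrt (psi (WD 1) x) := fun x => by positivity
  have h1 : ∫ x in A ∪ B, 2 / Real.sqrt (psi (WD 1) x) ≤ Omega (WD 1) := by
    unfold Omega
    refine setIntegral_mono_set hint (Eventually.of_forall hnn) ?_
    exact (Set.union_subset hAs hBs).eventuallyLE
  rw [setIntegral_union hdis hBm (hint.mono_set hAs) (hint.mono_set hBs)] at h1
  -- the bounded component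
  have h2 : (199 / 100 : ℝ) * (5 / 13) ≤ ∫ x in A, 2 / Real.sqrt (psi (WD 1) x) := by
    have h3 : ∫ x in A, (5 / 13 : ℝ) = (199 / 100 : ℝ) * (5 / 13) := by
      rw [hA, setIntegral_const]
      simp only [Real.volume_real_Ioc, smul_eq_mul]
      norm_num
    rw [← h3]
    refine setIntegral_mono_on ?_ (hint.mono_set hAs) hAm fun x hx => ?_
    · exact integrableOn_const (by rw [hA]; simp)
    · have hp : 0 < psi (WD 1) x := hAs hx
      have hle : psi (WD 1) x ≤ (26 / 5) ^ 2 := by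
        rw [psi_one]
        rw [hA] at hx
        obtain ⟨g1, g2⟩ := hx
        -- with `s = - 1 - x`
        nlinarith [mul_nonneg (sq_nonneg (-1 - x - 5 / 4)) (by linarith : (0 : ℝ) ≤ 4 * (-1 - x) + 17)]
      have hs : Real.sqrt (psi (WD 1) x) ≤ 26 / 5 := by
        rw [Real.sqrt_le_left (by norm_num)]
        exact hle
      have hsp : 0 < Real.sqrt (psi (WD 1) x) := Real.sqrt_pos.2 hp
      rw [le_div_iff₀ hsp]
      linarith
  -- the unbounded component
  have h4 : (3 / 5 : ℝ) ≤ ∫ x in B, 2 / Real.sqrt (psi (WD 1) x) := by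
    have hcont : ContinuousOn (fun x : ℝ => 8 / ((4 * x + 13) * Real.sqrt (4 * x + 13)))
        (uIcc 3 (387 / 4)) := by
      refine ContinuousOn.div (by fun_prop) (by fun_prop) fun x hx => ?_
      rw [uIcc_of_le (by norm_num)] at hx
      have : 0 < 4 * x + 13 := by linarith [hx.1]
      have h5 := Real.sqrt_pos.2 this
      positivity
    have h5 : ∫ x in (3 : ℝ)..(387 / 4), 8 / ((4 * x + 13) * Real.sqrt (4 * x + 13)) = 3 / 5 := by
      rw [intervalIntegral.integral_eq_sub_of_hasDerivAt (f := fun x : ℝ => -4 / Real.sqrt (4 * x + 13))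
        (fun x hx => ?_) hcont.intervalIntegrable]
      · have e1 : Real.sqrt (4 * (387 / 4) + 13) = 20 := by
          rw [show (4 * (387 / 4) + 13 : ℝ) = 20 ^ 2 by norm_num]
          exact Real.sqrt_sq (by norm_num)
        have e2 : Real.sqrt (4 * 3 + 13) = 5 := by
          rw [show (4 * 3 + 13 : ℝ) = 5 ^ 2 by norm_num]
          exact Real.sqrt_sq (by norm_num)
        rw [e1, e2]
        norm_num
      · rw [uIcc_of_le (by norm_num)] at hx
        have hp : 0 < 4 * x + 13 := by linarith [hx.1]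
        have hs := Real.sqrt_pos.2 hp
        have d1 : HasDerivAt (fun x : ℝ => 4 * x + 13) 4 x := by
          have := ((hasDerivAt_id x).const_mul 4).add_const 13
          simpa using this
        have d2 := d1.sqrt hp.ne'
        have d3 := (d2.inv hs.ne').const_mul (-4)
        have e : (fun x : ℝ => -4 / Real.sqrt (4 * x + 13)) =
            fun x : ℝ => -4 * (Real.sqrt (4 * x + 13))⁻¹ := by
          funext y
          rw [div_eq_mul_inv]
        rw [e]
        have hss : Real.sqrt (4 * x + 13) ^ 2 = 4 * x + 13 := Real.sq_sqrt hp.le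
        have e9 : 8 / ((4 * x + 13) * Real.sqrt (4 * x + 13)) =
            -4 * (-(4 / (2 * Real.sqrt (4 * x + 13))) / Real.sqrt (4 * x + 13) ^ 2) := by
          rw [hss]
          field_simp
          norm_num
        rw [e9]
        exact d3
    rw [← h5, intervalIntegral.integral_of_le (by norm_num), ← hB]
    refine setIntegral_mono_on ?_ (hint.mono_set hBs) hBm fun x hx => ?_
    · rw [hB, ← intervalIntegrable_iff_integrableOn_Ioc_of_le (by norm_num)]
      exact hcont.intervalIntegrable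
    · have hp : 0 < psi (WD 1) x := hBs hx
      rw [hB] at hx
      have hx3 := hx.1
      have hq : 0 < 4 * x + 13 := by linarith
      have hs : Real.sqrt (psi (WD 1) x) ≤ (4 * x + 13) / 4 * Real.sqrt (4 * x + 13) := by
        have h6 : psi (WD 1) x ≤ ((4 * x + 13) / 4) ^ 2 * (4 * x + 13) := by
          rw [psi_one]
          apply mul_le_mul_of_nonneg_right _ hq.le
          nlinarith
        calc Real.sqrt (psi (WD 1) x) ≤ Real.sqrt (((4 * x + 13) / 4) ^ 2 * (4 * x + 13)) :=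
              Real.sqrt_le_sqrt h6
          _ = (4 * x + 13) / 4 * Real.sqrt (4 * x + 13) := by
              rw [Real.sqrt_mul (by positivity), Real.sqrt_sq (by positivity)]
      have hsp : 0 < Real.sqrt (psi (WD 1) x) := Real.sqrt_pos.2 hp
      have hsq := Real.sqrt_pos.2 hq
      rw [div_le_div_iff₀ (by positivity) hsp]
      linarith
  norm_num at h2
  linarith

/-- the symbol at `0` is one -/
theorem s_zero {s : ℚ → ℤ} {L : PeriodPair} {Op Om : ℝ} (hOp : 0 < Op) (hOm : 0 < Om)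
    (g2 : L.g₂ = 481 / 12) (g3 : L.g₃ = 4879 / 216)
    (hL : ∀ w : ℂ, w ∈ L.lattice ↔ ∃ a b : ℤ, w = a * Op + b * Om * Complex.I)
    (hodd : Odd (s 0)) (hr : ∀ r : ℚ, (4 : ℝ) * (II r).re = s r * Op) : s 0 = 1 := by
  have h1 := t_OMEGA L Op Om hOp hOm g2 g3 hL 1 (by norm_num) (by norm_num)
  rw [Int.cast_one, Real.sqrt_one, div_one] at h1
  have h2 := omega_one (by rw [h1]; positivity)
  rw [h1] at h2
  obtain ⟨h3, h4⟩ := II_bound
  have h5 := hr 0
  have h6 : (0 : ℝ) ≤ s 0 := by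
    by_contra h
    rw [not_le] at h
    nlinarith
  have h7 : (s 0 : ℝ) < 3 := by
    by_contra h
    rw [not_lt] at h
    nlinarith
  have h8 : 0 ≤ s 0 := by exact_mod_cast h6
  have h9 : s 0 < 3 := by exact_mod_cast h7
  obtain ⟨k, hk⟩ := hodd
  omega

end Pool.Agent.H468.X15
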