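import Pool.Agent.H468.X15T.GsA

/-!
# The sign of the quadratic Gauss sum, part 2

For squarefree `M ≡ 1 mod 4` the Gauss sum of the Jacobi symbol modulo `M` is `√M`.
-/

set_option autoImplicit false
set_option linter.all false

namespace Pool.Agent.H468.X15.GS

open Finset

/-! ### positivity -/

theorem two_sin (N m : ℕ) : Complex.exp (2 * Real.pi * Complex.I / N) ^ m -
    (Complex.exp (2 * Real.pi * Complex.I / N))⁻¹ ^ m =
      2 * Complex.I * ((Real.sin (2 * Real.pi * m / N) : ℝ) : ℂ) := by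
  rw [inv_pow, ← Complex.exp_nat_mul, ← Complex.exp_neg]
  have e : (m : ℂ) * (2 * Real.pi * Complex.I / N) = ((2 * Real.pi * m / N : ℝ) : ℂ) * Complex.I := by
    push_cast
    ring
  rw [e, ← neg_mul, Complex.exp_mul_I, Complex.exp_mul_I, Complex.cos_neg, Complex.sin_neg,
    Complex.ofReal_sin]
  ring

theorem gauss_pos (n : ℕ) : ∃ r : ℝ, 0 < r ∧
    ∑ k ∈ range (4 * n + 1), Complex.exp (2 * Real.pi * Complex.I / ((4 * n + 1 : ℕ) : ℂ)) ^ (k ^ 2) =
      (r : ℂ) := by
  have hpi := Real.pi_pos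
  obtain ⟨N, hN⟩ : ∃ N : ℕ, N = 4 * n + 1 := ⟨_, rfl⟩
  rw [← hN]
  have hN0 : N ≠ 0 := by omega
  have hNR : (0 : ℝ) < N := by exact_mod_cast Nat.pos_of_ne_zero hN0
  have h1 := sum_sq (n := 2 * n) (Complex.isPrimitiveRoot_exp N hN0) (by omega)
  rw [h1]
  -- the sines
  obtain ⟨S, hS⟩ : ∃ S : ℕ → ℝ, S = fun j => Real.sin (2 * Real.pi * ((2 * j + 1 : ℕ) : ℝ) / N) :=
    ⟨_, rfl⟩
  have h2 : ∏ j ∈ range (2 * n), (Complex.exp (2 * Real.pi * Complex.I / N) ^ (2 * j + 1) -
      (Complex.exp (2 * Real.pi * Complex.I / N))⁻¹ ^ (2 * j + 1)) =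
      ((4 ^ n * ∏ j ∈ range n, (S j * -S (n + j)) : ℝ) : ℂ) := by
    have h3 : ∀ j : ℕ, Complex.exp (2 * Real.pi * Complex.I / N) ^ (2 * j + 1) -
      (Complex.exp (2 * Real.pi * Complex.I / N))⁻¹ ^ (2 * j + 1) = 2 * Complex.I * ((S j : ℝ) : ℂ) := by
      intro j
      rw [two_sin, hS]
    simp only [h3]
    rw [prod_mul_distrib, prod_const, card_range, pow_mul, mul_pow, Complex.I_sq]
    have h4 : ∏ j ∈ range (2 * n), ((S j : ℝ) : ℂ) = ((∏ j ∈ range (2 * n), S j : ℝ) : ℂ) := by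
      push_cast; rfl
    rw [h4, two_mul, prod_range_add]
    have h5 : ∏ j ∈ range n, (S j * -S (n + j)) =
        (-1) ^ n * ((∏ j ∈ range n, S j) * ∏ j ∈ range n, S (n + j)) := by
      rw [prod_mul_distrib]
      have h6 : ∏ j ∈ range n, -S (n + j) = (-1) ^ n * ∏ j ∈ range n, S (n + j) := by
        rw [show (fun j => -S (n + j)) = fun j => (-1) * S (n + j) by funext j; ring]
        rw [prod_mul_distrib, prod_const, card_range]
      rw [h6]
      ring
    rw [h5]
    push_cast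
    have h7 : ((2 : ℂ) ^ 2 * -1) ^ n = 4 ^ n * (-1) ^ n := by
      rw [← mul_pow]
      congr 1
      norm_num
    rw [h7]
    ring
  rw [h2]
  refine ⟨_, ?_, rfl⟩
  refine mul_pos (by positivity) (prod_pos fun j hj => ?_)
  have hj' := mem_range.1 hj
  have hjR : ((j : ℕ) : ℝ) + 1 ≤ n := by exact_mod_cast hj'
  have hNn : (N : ℝ) = 4 * n + 1 := by rw [hN]; push_cast; ring
  apply mul_pos
  · rw [hS]
    apply Real.sin_pos_of_pos_of_lt_pi
    · positivity
    · rw [div_lt_iff₀ hNR, hNn]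
      push_cast
      have h8 : 2 * Real.pi * (2 * (j : ℝ) + 1) = Real.pi * (4 * j + 2) := by ring
      rw [h8]
      apply mul_lt_mul_of_pos_left _ hpi
      linarith
  · rw [hS]
    simp only
    have h9 : -Real.sin (2 * Real.pi * ((2 * (n + j) + 1 : ℕ) : ℝ) / N) =
        Real.sin (2 * Real.pi * ((2 * (n + j) + 1 : ℕ) : ℝ) / N - Real.pi) := by
      rw [Real.sin_sub_pi]
    rw [h9]
    have h10 : 2 * Real.pi * ((2 * (n + j) + 1 : ℕ) : ℝ) / N - Real.pi =
        Real.pi * (4 * j + 1) / N := by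
      field_simp
      rw [hNn]
      push_cast
      ring
    rw [h10]
    apply Real.sin_pos_of_pos_of_lt_pi
    · positivity
    · rw [div_lt_iff₀ hNR, hNn]
      apply mul_lt_mul_of_pos_left _ hpi
      linarith

/-! ### the sum of the character -/

theorem prime_case (p : ℕ) [Fact p.Prime] (hp2 : p ≠ 2) (ψ : AddChar (ZMod p) ℂ)
    (hψ : ψ.IsPrimitive) : ∑ a : ZMod p, ((jacobiSym ((a.val : ℕ) : ℤ) p : ℤ) : ℂ) * ψ a =
      ∑ a : ZMod p, ψ (a ^ 2) := by
  classical
  have hch : ringChar (ZMod p) ≠ 2 := by rw [ZMod.ringChar_zmod_n]; exact hp2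
  have hj : ∀ a : ZMod p, jacobiSym ((a.val : ℕ) : ℤ) p = quadraticChar (ZMod p) a := by
    intro a
    rw [← jacobiSym.legendreSym.to_jacobiSym, legendreSym]
    congr 1
    simp
  have h1 : ∑ a : ZMod p, ψ (a ^ 2) = ∑ a : ZMod p, ((quadraticChar (ZMod p) a + 1 : ℤ) : ℂ) * ψ a := by
    rw [← Finset.sum_fiberwise_of_maps_to (s := univ) (t := univ) (g := fun a : ZMod p => a ^ 2)
      (fun _ _ => mem_univ _)]
    refine sum_congr rfl fun a _ => ?_
    rw [← quadraticChar_card_sqrts hch a]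
    rw [Finset.sum_congr rfl (g := fun _ => ψ a) (fun x hx => by rw [(mem_filter.1 hx).2])]
    rw [sum_const, nsmul_eq_mul]
    congr 1
    push_cast
    congr 1
    congr 1
    ext x
    simp
  rw [h1]
  have h2 : ∑ a : ZMod p, ψ a = 0 := by
    have hne : ψ ≠ 1 := by
      intro h
      have h3 := hψ (one_ne_zero : (1 : ZMod p) ≠ 0)
      rw [AddChar.mulShift_one] at h3
      exact h3 h
    exact AddChar.sum_eq_zero_of_ne_one hne
  have h3 : ∀ a : ZMod p, ((quadraticChar (ZMod p) a + 1 : ℤ) : ℂ) * ψ a =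
      ((jacobiSym ((a.val : ℕ) : ℤ) p : ℤ) : ℂ) * ψ a + ψ a := by
    intro a
    rw [hj]
    push_cast
    ring
  simp only [h3]
  rw [sum_add_distrib, h2, add_zero]

theorem jac_eq (M : ℕ) : Squarefree M → Odd M → ∀ (_ : NeZero M) (ψ : AddChar (ZMod M) ℂ),
    ψ.IsPrimitive → ∑ a : ZMod M, ((jacobiSym ((a.val : ℕ) : ℤ) M : ℤ) : ℂ) * ψ a =
      ∑ a : ZMod M, ψ (a ^ 2) := by
  induction M using induction_on_primes with
  | zero =>
    intro h
    exact absurd h not_squarefree_zero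
  | one =>
    intro _ _ _ ψ _
    refine sum_congr rfl fun a _ => ?_
    rw [jacobiSym.one_right, Int.cast_one, one_mul]
    congr 1
    exact Subsingleton.elim _ _
  | prime_mul p a hp ih =>
    intro hsq hodd hne ψ hψ
    haveI : Fact p.Prime := ⟨hp⟩
    have ha0 : a ≠ 0 := by
      rintro rfl
      rw [mul_zero] at hsq
      exact not_squarefree_zero hsq
    haveI : NeZero a := ⟨ha0⟩
    haveI : NeZero p := ⟨hp.ne_zero⟩
    have hco : Nat.Coprime p a := (Nat.squarefree_mul_iff.1 hsq).1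
    have hsa : Squarefree a := (Nat.squarefree_mul_iff.1 hsq).2.2
    have hoa : Odd a := (Nat.odd_mul.1 hodd).2
    have hp2 : p ≠ 2 := by
      rintro rfl
      exact absurd (Nat.odd_mul.1 hodd).1 (by decide)
    let e := ZMod.chineseRemainder hco
    let ψ1 : AddChar (ZMod p) ℂ :=
      ψ.compAddMonoidHom (e.symm.toAddEquiv.toAddMonoidHom.comp (AddMonoidHom.inl (ZMod p) (ZMod a)))
    let ψ2 : AddChar (ZMod a) ℂ :=
      ψ.compAddMonoidHom (e.symm.toAddEquiv.toAddMonoidHom.comp (AddMonoidHom.inr (ZMod p) (ZMod a)))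
    have e1 : ∀ x, ψ1 x = ψ (e.symm (x, 0)) := fun x => rfl
    have e2 : ∀ y, ψ2 y = ψ (e.symm (0, y)) := fun y => rfl
    have e3 : ∀ x y, ψ (e.symm (x, y)) = ψ1 x * ψ2 y := by
      intro x y
      rw [e1, e2, ← AddChar.map_add_eq_mul, ← map_add]
      simp
    have p1 : ψ1.IsPrimitive := by
      intro x hx h
      have h1 : e.symm (x, 0) ≠ 0 := by
        intro h2
        have h3 := congrArg e h2
        rw [RingEquiv.apply_symm_apply, map_zero] at h3
        exact hx (congrArg Prod.fst h3)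
      apply hψ h1
      ext z
      rw [AddChar.mulShift_apply, AddChar.one_apply]
      have h4 : e.symm (x, 0) * z = e.symm (x * (e z).1, 0) := by
        apply e.injective
        rw [map_mul, RingEquiv.apply_symm_apply, RingEquiv.apply_symm_apply]
        ext <;> simp
      rw [h4, ← e1]
      have h5 := DFunLike.congr_fun h (e z).1
      rw [AddChar.mulShift_apply, AddChar.one_apply] at h5
      exact h5
    have p2 : ψ2.IsPrimitive := by
      intro y hy h
      have h1 : e.symm (0, y) ≠ 0 := by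
        intro h2
        have h3 := congrArg e h2
        rw [RingEquiv.apply_symm_apply, map_zero] at h3
        exact hy (congrArg Prod.snd h3)
      apply hψ h1
      ext z
      rw [AddChar.mulShift_apply, AddChar.one_apply]
      have h4 : e.symm (0, y) * z = e.symm (0, y * (e z).2) := by
        apply e.injective
        rw [map_mul, RingEquiv.apply_symm_apply, RingEquiv.apply_symm_apply]
        ext <;> simp
      rw [h4, ← e2]
      have h5 := DFunLike.congr_fun h (e z).2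
      rw [AddChar.mulShift_apply, AddChar.one_apply] at h5
      exact h5
    have h1 := prime_case p hp2 ψ1 p1
    have h2 := ih hsa hoa inferInstance ψ2 p2
    -- the two sums
    have hR : ∑ z : ZMod (p * a), ψ (z ^ 2) = (∑ x : ZMod p, ψ1 (x ^ 2)) * ∑ y : ZMod a, ψ2 (y ^ 2) := by
      rw [← Equiv.sum_comp e.symm.toEquiv, Fintype.sum_prod_type, sum_mul_sum]
      refine sum_congr rfl fun x _ => sum_congr rfl fun y _ => ?_
      rw [← e3]
      congr 1
      show (e.symm (x, y)) ^ 2 = _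
      rw [← map_pow]
      rfl
    have hL : ∑ z : ZMod (p * a), ((jacobiSym ((z.val : ℕ) : ℤ) (p * a) : ℤ) : ℂ) * ψ z =
        (∑ x : ZMod p, ((jacobiSym ((x.val : ℕ) : ℤ) p : ℤ) : ℂ) * ψ1 x) *
          ∑ y : ZMod a, ((jacobiSym ((y.val : ℕ) : ℤ) a : ℤ) : ℂ) * ψ2 y := by
      rw [← Equiv.sum_comp e.symm.toEquiv, Fintype.sum_prod_type, sum_mul_sum]
      refine sum_congr rfl fun x _ => sum_congr rfl fun y _ => ?_
      show ((jacobiSym (((e.symm (x, y)).val : ℕ) : ℤ) (p * a) : ℤ) : ℂ) * ψ (e.symm (x, y)) = _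
      rw [e3, jacobiSym.mul_right]
      obtain ⟨z, hz⟩ : ∃ z : ZMod (p * a), z = e.symm (x, y) := ⟨_, rfl⟩
      have hez : e z = (x, y) := by rw [hz, RingEquiv.apply_symm_apply]
      have hez' : e ((z.val : ℕ) : ZMod (p * a)) = (((z.val : ℕ) : ZMod p), ((z.val : ℕ) : ZMod a)) := by
        rw [map_natCast]
        rfl
      rw [ZMod.natCast_zmod_val, hez] at hez'
      have hx : x = ((z.val : ℕ) : ZMod p) := congrArg Prod.fst hez'
      have hy : y = ((z.val : ℕ) : ZMod a) := congrArg Prod.snd hez'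
      rw [← hz]
      have hjx : jacobiSym ((x.val : ℕ) : ℤ) p = jacobiSym ((z.val : ℕ) : ℤ) p := by
        rw [hx, ZMod.val_natCast]
        rw [jacobiSym.mod_left ((z.val : ℕ) : ℤ) p]
        push_cast
        rfl
      have hjy : jacobiSym ((y.val : ℕ) : ℤ) a = jacobiSym ((z.val : ℕ) : ℤ) a := by
        rw [hy, ZMod.val_natCast]
        rw [jacobiSym.mod_left ((z.val : ℕ) : ℤ) a]
        push_cast
        rfl
      rw [hjx, hjy]
      push_cast
      ring
    rw [hL, hR, h1, h2]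

/-- the Gauss sum of the Jacobi symbol is a positive real number -/
theorem gauss_sign {M : ℕ} [NeZero M] (hsq : Squarefree M) (h4 : M % 4 = 1) :
    ∃ r : ℝ, 0 < r ∧ ∑ a : ZMod M, ((jacobiSym ((a.val : ℕ) : ℤ) M : ℤ) : ℂ) *
      ZMod.stdAddChar a = (r : ℂ) := by
  obtain ⟨n, hn⟩ : ∃ n, M = 4 * n + 1 := ⟨M / 4, by omega⟩
  obtain ⟨r, hr, h⟩ := gauss_pos n
  refine ⟨r, hr, ?_⟩
  rw [← h, ← hn, jac_eq M hsq (Nat.odd_iff.2 (by omega)) inferInstance _ (ZMod.isPrimitive_stdAddChar M)]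
  have h1 : ∀ k : ℕ, (ZMod.stdAddChar ((k : ℕ) : ZMod M) : ℂ) =
      Complex.exp (2 * Real.pi * Complex.I / M) ^ k := by
    intro k
    have h2 := ZMod.stdAddChar_coe (N := M) (k : ℤ)
    rw [Int.cast_natCast] at h2
    rw [h2, ← Complex.exp_nat_mul]
    congr 1
    push_cast
    ring
  have h3 : ∑ a : ZMod M, (ZMod.stdAddChar (a ^ 2) : ℂ) =
      ∑ k ∈ range M, (ZMod.stdAddChar ((k : ZMod M) ^ 2) : ℂ) := by
    refine Finset.sum_nbij' (fun a => a.val) (fun k => (k : ZMod M)) ?_ ?_ ?_ ?_ ?_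
    · intro a _
      exact mem_range.2 (ZMod.val_lt a)
    · intro k _
      exact mem_univ _
    · intro a _
      exact ZMod.natCast_zmod_val a
    · intro k hk
      exact ZMod.val_cast_of_lt (mem_range.1 hk)
    · intro a _
      rw [ZMod.natCast_zmod_val]
  rw [h3]
  refine sum_congr rfl fun k _ => ?_
  rw [← h1]
  push_cast
  rfl

end Pool.Agent.H468.X15.GS
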