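import Pool.Graph.R_pool_sql_team_seeded_620a6dc7.H757_X15.MT.Lm15
import Pool.Agent.H468.X15T.GsB

/-!
# The central value of the twists of `X_0(15)`, with the sign
-/

set_option autoImplicit false
set_option linter.all false

open Complex Filter Topology Set UpperHalfPlane MatrixGroups CongruenceSubgroup ZMod

namespace Pool.Agent.H468.X15

open Pool.Agent.H757_X15
open Pool.Agent.W97.MT (affCount ap)
open Pool.Agent.Y687 (SS rr mem_rr p_cpow sum_rrC)
open Pool.Agent.Y700 (gs_sq)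
open Pool.Agent.H491R3.J (OS)

/-- the `L`-function of the twist by `M`, with the sign of the Gauss sum -/
theorem exists_LMpos (M : ℕ) [NeZero M] (hodd : Odd M) (hsq : Squarefree M) (h1 : 1 < M)
    (h4 : M % 4 = 1) (h15 : Nat.Coprime M 15) :
    ∃ (f : ℂ → ℂ) (τ : ℂ), IsL (WD M) f ∧ τ ^ 2 = M ∧ (∃ r : ℝ, 0 < r ∧ τ = r) ∧
      τ * f 1 = ∑ u : (ZMod M)ˣ, ((jacobiSym (((u : ZMod M).val : ℕ) : ℤ) M : ℤ) : ℂ) *
        II (((u : ZMod M).val : ℚ) / M) := by
  classical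
  set d : OS := ⟨M, hodd, hsq, h1⟩ with hd
  obtain ⟨g, hg1, hg2, hg3⟩ := exists_L (q := M) h15 (Pool.Agent.H491R3.J.chi d) (Pool.Agent.H491R3.J.chi_primitive d)
  have hchi : ∀ m : ℕ, Pool.Agent.H491R3.J.chi d (m : ZMod M) = ((jacobiSym (m : ℤ) M : ℤ) : ℂ) :=
    Pool.Agent.H491R3.J.chi_natCast d
  refine ⟨g, gaussSum (Pool.Agent.H491R3.J.chi d) (stdAddChar (N := M)), ⟨hg1, ?_⟩, gs_sq d h4, ?_, ?_⟩
  · intro s hs
    refine (congrArg (fun g => HasProd g _) (funext fun p => ?_)).mp (hg2 s hs)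
    have hpp : (p : ℕ).Prime := p.2
    haveI : Fact (p : ℕ).Prime := ⟨hpp⟩
    rw [hchi]
    by_cases hpM : (p : ℕ) ∣ M
    · have hbad : ((p : ℕ) : ℤ) ∣ (WD M).Δ := (dvd_Delta h4 hpp).2 (Or.inr hpM)
      have h0 : jacobiSym ((p : ℕ) : ℤ) M = 0 := by
        rw [jacobiSym.eq_zero_iff_not_coprime, Int.gcd_natCast_natCast]
        intro hg
        have := Nat.dvd_gcd (dvd_refl (p : ℕ)) hpM
        rw [hg] at this
        exact hpp.one_lt.ne' (Nat.dvd_one.1 this)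
      have hp2 : (p : ℕ) ≠ 2 := by
        intro h
        rw [h] at hpM
        omega
      rw [h0, if_pos hbad, ap_dvd (by omega) _ hp2 (by exact_mod_cast hpM)]
      simp
    · have hx : jacobiSym ((p : ℕ) : ℤ) M = 1 ∨ jacobiSym ((p : ℕ) : ℤ) M = -1 := by
        refine jacobiSym.eq_one_or_neg_one ?_
        rw [Int.gcd_natCast_natCast]
        exact (Nat.Prime.coprime_iff_not_dvd hpp).2 hpM
      have hx2 : ((jacobiSym ((p : ℕ) : ℤ) M : ℤ) : ℂ) ^ 2 = 1 := by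
        rcases hx with h | h <;> rw [h] <;> norm_num
      have hap : ap (WD M) p = jacobiSym ((p : ℕ) : ℤ) M * ap E15 p := by
        by_cases hp2 : (p : ℕ) = 2
        · rw [hp2, ap_two h4, ap2]
          push_cast
          ring
        · exact ap_odd h4 _ hp2 hpM
      rw [hap, hx2]
      have hΔ : ((p : ℕ) : ℤ) ∣ (WD M).Δ ↔ (p : ℕ) ∣ 15 := by
        rw [dvd_Delta h4 hpp]
        tauto
      by_cases h15' : (p : ℕ) ∣ 15
      · rw [if_pos h15', if_pos (hΔ.2 h15')]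
        push_cast
        ring
      · rw [if_neg h15', if_neg (fun h => h15' (hΔ.1 h)), mul_one, p_cpow hpp.ne_zero]
        push_cast
        ring
  · obtain ⟨r, hr, h⟩ := GS.gauss_sign hsq h4
    refine ⟨r, hr, ?_⟩
    rw [← h]
    unfold gaussSum
    refine Finset.sum_congr rfl fun a _ => ?_
    rw [← hchi, ZMod.natCast_zmod_val]
  · have hinv : (Pool.Agent.H491R3.J.chi d)⁻¹ = Pool.Agent.H491R3.J.chi d := Pool.Agent.H491R3.J.chi_inv d
    rw [hinv] at hg3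
    rw [hg3]
    refine Finset.sum_congr rfl fun u _ => ?_
    rw [← hchi, ZMod.natCast_zmod_val]

/-- the central value, with the sign -/
theorem value_pos {M : ℕ} (hsq : Squarefree M) (h1 : 1 < M) (h4 : M % 4 = 1)
    (h15 : Nat.Coprime M 15) {s : ℚ → ℤ} {Op : ℝ} (hs : ∀ r : ℚ, (4 : ℝ) * (II r).re = s r * Op) :
    ∃ f : ℂ → ℂ, IsL (WD M) f ∧ f 1 = ((SS s M M * Op / (4 * Real.sqrt M) : ℝ) : ℂ) := by
  haveI : NeZero M := ⟨by omega⟩
  obtain ⟨f, τ, hf, hτ, ⟨r0, hr0, hτr⟩, hv⟩ :=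
    exists_LMpos M (Nat.odd_iff.2 (by omega)) hsq h1 h4 h15
  have him := sum_real M h1 h4
  have hre : (∑ u : (ZMod M)ˣ, ((jacobiSym (((u : ZMod M).val : ℕ) : ℤ) M : ℤ) : ℂ) *
        II (((u : ZMod M).val : ℚ) / M)).re * 4 = SS s M M * Op := by
    unfold SS
    rw [sum_rrC (M := M) (fun a => ((jacobiSym (a : ℤ) M : ℤ) : ℂ) * II ((a : ℚ) / M)) |>.symm,
      Complex.re_sum]
    push_cast
    rw [Finset.sum_mul, Finset.sum_mul]
    refine Finset.sum_congr rfl fun a _ => ?_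
    have h3 : ((jacobiSym (a : ℤ) M : ℤ) : ℂ) = (((jacobiSym (a : ℤ) M : ℤ) : ℝ) : ℂ) := by
      push_cast; rfl
    rw [h3, Complex.re_ofReal_mul]
    have := hs ((a : ℚ) / M)
    linear_combination ((jacobiSym (a : ℤ) M : ℝ)) * this
  set T := ∑ u : (ZMod M)ˣ, ((jacobiSym (((u : ZMod M).val : ℕ) : ℤ) M : ℤ) : ℂ) *
        II (((u : ZMod M).val : ℚ) / M) with hT
  have hTr : T = ((SS s M M * Op / 4 : ℝ) : ℂ) := by
    apply Complex.ext
    · rw [Complex.ofReal_re]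
      linarith
    · rw [Complex.ofReal_im]
      exact him
  have hMR : (0 : ℝ) < M := by exact_mod_cast (by omega : 0 < M)
  have hsq0 : (Real.sqrt M) ≠ 0 := (Real.sqrt_pos.2 hMR).ne'
  have h : τ = Real.sqrt M := by
    rw [hτr] at hτ ⊢
    have h5 : r0 ^ 2 = M := by exact_mod_cast hτ
    rw [← h5, Real.sqrt_sq hr0.le]
  have hsqc : ((Real.sqrt M : ℝ) : ℂ) ≠ 0 := by exact_mod_cast hsq0
  refine ⟨f, hf, ?_⟩
  rw [h, hTr] at hv
  rw [Complex.ofReal_div, Complex.ofReal_mul (4 : ℝ)]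
  rw [Complex.ofReal_div] at hv
  field_simp
  field_simp at hv
  push_cast at hv ⊢
  linear_combination hv

end Pool.Agent.H468.X15
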