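import Pool.Agent.H468.X15T.TamB
import Pool.Agent.H468.X15T.Tors
import Pool.Agent.H468.X15T.Per
import Pool.Agent.H468.X15T.Val
import Pool.Agent.H468.X15S.Top
import Pool.Graph.R_pool_sql_team_seeded_620a6dc7.H757_X15.MT.MOD
import Pool.Graph.R_seed8.Y700.ShaVC

/-!
# The `2`-part of the formula of Birch and Swinnerton-Dyer for the twists of `X_0(15)`
-/

set_option autoImplicit false
set_option linter.all false

open scoped Classical

open WeierstrassCurve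

namespace Pool.Agent.H468.X15

open Pool.Agent.H757_X15 (WD IsL)
open Pool.Agent.H757_X15.DD (Fm Crit)
open Pool.Agent.Y700 (SingRed E0 tam PtP Omega VR)
open Pool.Agent.Y809.BSD14

/-! ### elementary facts on the class -/

theorem fm_mod4 {D : ℕ} (h : Fm D) : D % 4 = 1 := by rcases h with h | h <;> omega

theorem fm_cop {D : ℕ} (h : Fm D) : Nat.Coprime D 15 := by
  have h3 : Nat.Coprime D 3 := by
    rw [Nat.coprime_comm, Nat.Prime.coprime_iff_not_dvd Nat.prime_three]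
    rcases h with h | h <;> omega
  have h5 : Nat.Coprime D 5 := by
    rw [Nat.coprime_comm, Nat.Prime.coprime_iff_not_dvd Nat.prime_five]
    rcases h with h | h <;> omega
  exact Nat.Coprime.mul_right h3 h5

theorem not_sq {D : ℕ} (hD : Squarefree D) (h1 : D ≠ 1) : ¬ IsSquare ((D : ℤ) : ℚ) := by
  rintro ⟨r, hr⟩
  have h2 : IsSquare ((D : ℕ) : ℚ) := ⟨r, by exact_mod_cast hr⟩
  rw [Rat.isSquare_natCast_iff] at h2
  obtain ⟨k, hk⟩ := h2
  have h3 : IsUnit k := hD k (by rw [hk])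
  rw [Nat.isUnit_iff] at h3
  apply h1
  rw [hk, h3]

/-! ### the invariants -/

/-- the product of the Tamagawa numbers -/
noncomputable def TamProd (W : WeierstrassCurve ℤ) : ℕ :=
  ∏ p ∈ W.Δ.natAbs.primeFactors, if h : p.Prime then (haveI := Fact.mk h; tam W p) else 1

theorem tamProd_eq {D : ℕ} (hD : Squarefree D) (hF : Fm D) :
    TamProd (WD D) = 2 ^ (2 * D.primeFactors.card + 3) := by
  have h4 := fm_mod4 hF
  have hD0 : D ≠ 0 := hD.ne_zero
  have hM4 : ((D : ℕ) : ℤ) % 4 = 1 := by omega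
  have hcop := fm_cop hF
  have hΔ : (WD D).Δ.natAbs = 3 ^ 4 * (5 ^ 4 * D ^ 6) := by
    rw [Pool.Agent.H757_X15.Delta_WD hM4]
    have e : ((3 ^ 4 * 5 ^ 4) * ((D : ℕ) : ℤ) ^ 6) = (((3 ^ 4 * (5 ^ 4 * D ^ 6) : ℕ)) : ℤ) := by
      push_cast
      ring
    rw [e, Int.natAbs_natCast]
  have hpf : (WD D).Δ.natAbs.primeFactors = insert 3 (insert 5 D.primeFactors) := by
    rw [hΔ, Nat.primeFactors_mul (by norm_num) (by positivity), Nat.primeFactors_mul (by norm_num)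
      (by positivity), Nat.primeFactors_prime_pow (by norm_num) Nat.prime_three,
      Nat.primeFactors_prime_pow (by norm_num) Nat.prime_five, Nat.primeFactors_pow _ (by norm_num)]
    rfl
  have n3 : ¬ 3 ∣ D := by rcases hF with h | h <;> omega
  have n5 : ¬ 5 ∣ D := by rcases hF with h | h <;> omega
  have n2 : ¬ 2 ∣ D := by omega
  unfold TamProd
  rw [hpf, Finset.prod_insert, Finset.prod_insert]
  · have h3 : (if h : Nat.Prime 3 then (haveI := Fact.mk h; tam (WD D) 3) else 1) = 2 := by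
      rw [dif_pos Nat.prime_three]
      exact tam3 hM4 (by rcases hF with h | h <;> omega)
    have h5 : (if h : Nat.Prime 5 then (haveI := Fact.mk h; tam (WD D) 5) else 1) = 4 := by
      rw [dif_pos Nat.prime_five]
      exact tam5 hM4 (by rcases hF with h | h <;> omega)
    rw [h3, h5]
    have h6 : ∀ p ∈ D.primeFactors,
        (if h : p.Prime then (haveI := Fact.mk h; tam (WD D) p) else 1) = 4 := by
      intro p hp
      have hpp := Nat.prime_of_mem_primeFactors hp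
      have hpd := Nat.dvd_of_mem_primeFactors hp
      rw [dif_pos hpp]
      haveI := Fact.mk hpp
      refine (BadP.of (q := p) (M := (D : ℤ)) hM4 ?_ ?_ ?_ (by exact_mod_cast hpd)
        (Int.squarefree_natCast.2 hD)).tam
      · rintro rfl
        exact n2 hpd
      · rintro rfl
        exact n3 hpd
      · rintro rfl
        exact n5 hpd
    rw [Finset.prod_congr rfl h6, Finset.prod_const, pow_add, pow_mul]
    norm_num
    ring
  · intro h
    exact n5 (Nat.dvd_of_mem_primeFactors h)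
  · rw [Finset.mem_insert, not_or]
    exact ⟨by norm_num, fun h => n3 (Nat.dvd_of_mem_primeFactors h)⟩

/-- the `L`-value -/
theorem lval {D : ℕ} (hD : Squarefree D) (hF : Fm D) (h1 : D ≠ 1) :
    ∃ f : ℂ → ℂ, IsL (WD D) f ∧ ∃ y : ℕ,
      f 1 = (((y : ℝ) ^ 2 * 4 ^ D.primeFactors.card * Omega (WD D) / 2 : ℝ) : ℂ) ∧
      (Odd y ↔ Crit D) := by
  obtain ⟨s, L, Op, Om, hOp, hOm, g2, g3, hL, hsym, hre⟩ := Pool.Agent.H757_X15.t_SYMB
  have hD0 := hD.ne_zero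
  have hD1 : 1 < D := by omega
  have h4 := fm_mod4 hF
  obtain ⟨y, hy, hodd⟩ := Pool.Agent.H757_X15.CC.t_MAINC2 Pool.Agent.H757_X15.BB.t_BIL s _ hsym D
    hD hF h1
  have hs0 := s_zero hOp hOm g2 g3 hL hsym.odd0 hre
  obtain ⟨f, hf, hf1⟩ := value_pos hD hD1 h4 (fm_cop hF) hre
  have hΩ := Pool.Agent.H757_X15.t_OMEGA L Op Om hOp hOm g2 g3 hL (D : ℤ) (by omega) (by omega)
  refine ⟨f, hf, y.natAbs, ?_, by rw [Int.natAbs_odd]; exact hodd⟩
  rw [hf1, hy, hs0, hΩ]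
  congr 1
  have hya : ((y.natAbs : ℕ) : ℝ) ^ 2 = (y : ℝ) ^ 2 := by
    have h5 : ((y.natAbs : ℕ) : ℝ) = |(y : ℝ)| := by
      rw [Nat.cast_natAbs, Int.cast_abs]
    rw [h5, sq_abs]
  rw [hya]
  have hsq : (0 : ℝ) < Real.sqrt ((D : ℤ) : ℝ) := by
    apply Real.sqrt_pos.2
    have : (0 : ℤ) < D := by omega
    exact_mod_cast this
  have e : Real.sqrt ((D : ℕ) : ℝ) = Real.sqrt ((D : ℤ) : ℝ) := by norm_num
  rw [e]
  push_cast
  rw [pow_succ]
  push_cast at hsq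
  field_simp

/-! ### the Selmer side -/

/-- the other equation of the curve -/
def EX (D : ℤ) : WeierstrassCurve ℚ := ⟨0, 41 * (D : ℚ), 0, 400 * (D : ℚ) ^ 2, 0⟩

theorem vr_one {D : ℤ} (hM : D % 4 = 1) : VR (EX D) (EQ D) 2 (-12 * D) 1 4 := by
  have h := isWD (K := ℚ) D hM
  have h1 : (EQ D).a₁ = 1 := h.a1
  have h3 : (EQ D).a₃ = 1 := h.a3
  have h2 : 4 * (EQ D).a₂ = 5 * D - 1 := h.a2
  have h4 : 2 * (EQ D).a₄ = -(19 * (D : ℚ) ^ 2 + 1) := h.a4
  have h6 : 4 * (EQ D).a₆ = -(39 * (D : ℚ) ^ 3 + 1) := h.a6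
  have k1 : (EX D).a₁ = 0 := rfl
  have k2 : (EX D).a₂ = 41 * D := rfl
  have k3 : (EX D).a₃ = 0 := rfl
  have k4 : (EX D).a₄ = 400 * (D : ℚ) ^ 2 := rfl
  have k6 : (EX D).a₆ = 0 := rfl
  refine ⟨two_ne_zero, ?_, ?_, ?_, ?_, ?_⟩
  · rw [h1, k1]; norm_num
  · rw [k1, k2]; linear_combination h2
  · rw [h3, k1, k3]; norm_num
  · rw [k1, k2, k3, k4]; linear_combination 8 * h4
  · rw [k1, k2, k3, k4, k6]; linear_combination 16 * h6

theorem vr_two {D : ℤ} (hM : D % 4 = 1) :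
    VR (EQ D) (EX D) (1 / 2) (3 * D) (-1 / 2) (-(3 * D + 1) / 2) := by
  have h := isWD (K := ℚ) D hM
  have h1 : (EQ D).a₁ = 1 := h.a1
  have h3 : (EQ D).a₃ = 1 := h.a3
  have h2 : 4 * (EQ D).a₂ = 5 * D - 1 := h.a2
  have h4 : 2 * (EQ D).a₄ = -(19 * (D : ℚ) ^ 2 + 1) := h.a4
  have h6 : 4 * (EQ D).a₆ = -(39 * (D : ℚ) ^ 3 + 1) := h.a6
  have k1 : (EX D).a₁ = 0 := rfl
  have k2 : (EX D).a₂ = 41 * D := rfl
  have k3 : (EX D).a₃ = 0 := rfl
  have k4 : (EX D).a₄ = 400 * (D : ℚ) ^ 2 := rfl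
  have k6 : (EX D).a₆ = 0 := rfl
  refine ⟨by norm_num, ?_, ?_, ?_, ?_, ?_⟩
  · rw [h1, k1]; norm_num
  · rw [h1, k2]; linear_combination (-1 / 4) * h2
  · rw [h1, h3, k3]; ring
  · rw [h1, h3, k4]; linear_combination (-1 / 2) * h4 - (3 * D / 2) * h2
  · rw [h1, h3, k6]; linear_combination (-1 / 4) * h6 - (3 * D / 2) * h4 - (9 * (D : ℚ) ^ 2 / 4) * h2

theorem delta_EX {D : ℤ} (hD : D ≠ 0) : (EX D).Δ ≠ 0 := by
  have e : (EX D).Δ = 2 ^ 12 * 3 ^ 4 * 5 ^ 4 * (D : ℚ) ^ 6 := by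
    simp only [EX, WeierstrassCurve.Δ, WeierstrassCurve.b₂, WeierstrassCurve.b₄,
      WeierstrassCurve.b₆, WeierstrassCurve.b₈]
    ring
  rw [e]
  have : (D : ℚ) ≠ 0 := by exact_mod_cast hD
  positivity

theorem delta_EQ {D : ℤ} (hM : D % 4 = 1) : (EQ D).Δ ≠ 0 := by
  have hD : D ≠ 0 := by omega
  exact (vr_two hM).delta_ne (delta_EX hD)

theorem mod_EX {D : ℤ} (hD : D ≠ 0) : Mod (EX D) D 0 (-16 * D) (-25 * D) 1 where
  r := by
    refine ⟨rfl, ?_, rfl, ?_, ?_⟩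
    · show 41 * (D : ℚ) = _
      ring
    · show 400 * (D : ℚ) ^ 2 = _
      ring
    · show (0 : ℚ) = _
      ring
  l0 := one_ne_zero
  d0 := hD
  hb := by ring
  hc := by ring

/-- the short equation -/
def ES (D : ℕ) : WeierstrassCurve ℚ :=
  ⟨0, 0, 0, ((-12987 * (D : ℤ) ^ 2 : ℤ) : ℚ), ((-263466 * (D : ℤ) ^ 3 : ℤ) : ℚ)⟩

theorem vr_short (D : ℕ) : VR (ES D) (EX D) 3 (123 * D) 0 0 := by
  refine ⟨by norm_num, ?_, ?_, ?_, ?_, ?_⟩
  · show (3 : ℚ) * 0 = 0 + 2 * 0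
    norm_num
  · show (3 : ℚ) ^ 2 * (41 * ((D : ℤ) : ℚ)) = 0 - 0 * 0 + 3 * (123 * (D : ℚ)) - 0 ^ 2
    push_cast
    ring
  · show (3 : ℚ) ^ 3 * 0 = 0 + 123 * (D : ℚ) * 0 + 2 * 0
    norm_num
  · show (3 : ℚ) ^ 4 * (400 * ((D : ℤ) : ℚ) ^ 2) = ((-12987 * (D : ℤ) ^ 2 : ℤ) : ℚ) - 0 * 0 +
      2 * (123 * (D : ℚ)) * 0 - (0 + 123 * (D : ℚ) * 0) * 0 + 3 * (123 * (D : ℚ)) ^ 2 - 2 * 0 * 0
    push_cast
    ring
  · show (3 : ℚ) ^ 6 * 0 = ((-263466 * (D : ℤ) ^ 3 : ℤ) : ℚ) + 123 * (D : ℚ) *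
      ((-12987 * (D : ℤ) ^ 2 : ℤ) : ℚ) + (123 * (D : ℚ)) ^ 2 * 0 + (123 * (D : ℚ)) ^ 3 - 0 * 0 -
      0 ^ 2 - 123 * (D : ℚ) * 0 * 0
    push_cast
    ring

/-- `E_D(ℚ)` is finite -/
theorem finite_EX {D : ℕ} (hD : Squarefree D) (hF : Fm D) (h1 : D ≠ 1) (hC : Crit D) :
    Finite (EX D).toAffine.Point := by
  have h2 : Finite (ES D).toAffine.Point :=
    Pool.Agent.Y687.finite_pt_of_set (finite_set hD hF hC h1)
  have hD0 : ((D : ℕ) : ℤ) ≠ 0 := by exact_mod_cast hD.ne_zero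
  exact Finite.of_equiv _ ((vr_short D).equiv (delta_EX hD0)).toEquiv.symm

/-- `E_D(ℚ)` is finite and the `2`-primary part of `Ш(E_D/ℚ)` is zero -/
def FinSha (W : WeierstrassCurve ℚ) : Prop :=
  Finite W.toAffine.Point ∧ ∀ (n : ℕ) (x : Pool.Agent.TH841.SH.D.Sha W), 2 ^ n • x = 0 → x = 0

theorem finSha_iff {D : ℕ} (hD : Squarefree D) (hF : Fm D) (h1 : D ≠ 1) :
    FinSha (EQ D) ↔ Crit D := by
  have h4 : ((D : ℕ) : ℤ) % 4 = 1 := by have := fm_mod4 hF; omega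
  have hD0 : ((D : ℕ) : ℤ) ≠ 0 := by exact_mod_cast hD.ne_zero
  have key := sha_iff_crit (mod_EX hD0) hD hF h1 (fun hC => finite_EX hD hF h1 hC)
  have tr : (∀ x : Pool.Agent.TH841.SH.D.Sha (EX D), x + x = 0 → x = 0) ↔
      ∀ x : Pool.Agent.W262.SH.Sha (EX D), x + x = 0 → x = 0 := by
    let e := Pool.Agent.TH841.SH.D.eSha (EX D)
    constructor
    · intro h x hx
      have h2 := h (e.symm x) (by rw [← map_add, hx, map_zero])
      have h3 := congrArg e h2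
      rwa [AddEquiv.apply_symm_apply, map_zero] at h3
    · intro h x hx
      have h2 := h (e x) (by rw [← map_add, hx, map_zero])
      have h3 := congrArg e.symm h2
      rwa [AddEquiv.symm_apply_apply, map_zero] at h3
  constructor
  · rintro ⟨hf, hs⟩
    apply key.1
    refine ⟨Finite.of_equiv _ ((vr_two h4).equiv (delta_EX hD0)).toEquiv.symm, ?_⟩
    rw [tr]
    intro x hx
    refine Pool.Agent.Y700.sha_two (vr_two h4) (delta_EX hD0) ?_ x hx
    intro z hz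
    have e := Pool.Agent.TH841.SH.D.eSha (EQ D)
    have h2 := hs 1 ((Pool.Agent.TH841.SH.D.eSha (EQ D)).symm z) (by
      rw [pow_one, two_nsmul, ← map_add, hz, map_zero])
    have h3 := congrArg (Pool.Agent.TH841.SH.D.eSha (EQ D)) h2
    rwa [AddEquiv.apply_symm_apply, map_zero] at h3
  · intro hC
    obtain ⟨hf, hs⟩ := key.2 hC
    rw [tr] at hs
    exact ⟨Finite.of_equiv _ ((vr_one h4).equiv (delta_EQ h4)).toEquiv.symm,
      fun n x hx => Pool.Agent.Y700.sha_two_pow (vr_one h4) (delta_EQ h4) hs n x hx⟩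

/-- the minimality of the equation -/
theorem minimal_WD {D : ℕ} (hD : Squarefree D) (hF : Fm D) :
    Pool.Agent.W97.MT.IsGloballyMinimal (WD D) := by
  refine (Pool.Agent.H757_X15.t_MOD (D : ℤ) ?_ (Int.squarefree_natCast.2 hD) ?_ ?_).1
  · have := fm_mod4 hF; omega
  · rcases hF with h | h <;> omega
  · rcases hF with h | h <;> omega

/-- the order of the torsion subgroup -/
theorem tors_WD {D : ℕ} (hD : Squarefree D) (hF : Fm D) (h1 : D ≠ 1) :
    Nat.card (AddCommGroup.torsion (EQ D).toAffine.Point) = 4 := by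
  have h4 := fm_mod4 hF
  exact tors_card (by omega) (by omega) (not_sq hD h1)

end Pool.Agent.H468.X15
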