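import Pool.Agent.H468.X15T.TamA
import Pool.Agent.H468.X15S.Pad

/-!
# Twists of `X_0(15)`: the Tamagawa numbers at `3` and at `5`
-/

set_option autoImplicit false
set_option linter.all false

open scoped Classical

open WeierstrassCurve

namespace Pool.Agent.H468.X15

open Pool.Agent.H757_X15 (WD)
open Pool.Agent.Y700 (SingRed E0 tam PtP)
open Pool.Agent.Y809.BSD14

section three

variable {M : ℤ}

theorem t_n3 : ‖(3 : ℚ_[3])‖ = 1 / 3 := by
  have := Padic.norm_p (p := 3)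
  simpa using this

theorem t_lt3 {x : ℚ_[3]} (h : ‖x‖ < 1) : ‖x‖ ≤ 1 / 3 := by
  have := norm_le_inv 3 h
  simpa using this

theorem t_unit3 {n : ℤ} (h : ¬ (3 : ℤ) ∣ n) : ‖(n : ℚ_[3])‖ = 1 := unit_int (q := 3) (by exact_mod_cast h)

theorem t_div3 {x : ℚ_[3]} (h : ‖x‖ < 1) : ∃ u : ℚ_[3], x = 3 * u ∧ ‖u‖ ≤ 1 := by
  refine ⟨x / 3, by rw [mul_div_cancel₀]; norm_num, ?_⟩
  rw [norm_div, t_n3, div_le_iff₀ (by norm_num)]
  linarith [t_lt3 h]

/-- at `3` the points outside `E⁰` are those with `|X + 16 M| < 1` -/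
theorem mem3 (hM4 : M % 4 = 1) (hM3 : M % 3 = 1) {P : PtP (WD M) 3} {X Y : ℚ_[3]}
    (hP : At (M : ℚ_[3]) P X Y) : P ∉ E0 (WD M) 3 ↔ ‖X + 16 * M‖ < 1 := by
  have hW := isWD (K := ℚ_[3]) M hM4
  have he := hP.eqn hW
  have hmi := nint (q := 3) M
  have l3 : ‖(3 : ℚ_[3])‖ < 1 := by rw [t_n3]; norm_num
  have i8 : ‖(8 : ℚ_[3])‖ ≤ 1 := by exact_mod_cast nnat (K := ℚ_[3]) 8
  have i16 : ‖(16 : ℚ_[3])‖ ≤ 1 := by exact_mod_cast nnat (K := ℚ_[3]) 16
  have u4 : ‖(4 : ℚ_[3])‖ = 1 := norm4 (by norm_num)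
  have u2 : ‖(2 : ℚ_[3])‖ = 1 := norm2 (by norm_num)
  have uM : ‖(M : ℚ_[3])‖ = 1 := t_unit3 (by omega)
  rw [mem_E0 hM4 (by norm_num) hP]
  constructor
  · rintro ⟨hX, hY, hF⟩
    -- F' = 3 X² + 82 M X + 400 M² = M (X + 16 M) + 3 (…)
    have e : M * (X + 16 * M) = (3 * X ^ 2 + 82 * M * X + 400 * (M : ℚ_[3]) ^ 2) -
        3 * (X ^ 2 + 27 * M * X + 128 * M ^ 2) := by ring
    have i27 : ‖(27 : ℚ_[3])‖ ≤ 1 := by exact_mod_cast nnat (K := ℚ_[3]) 27
    have i128 : ‖(128 : ℚ_[3])‖ ≤ 1 := by exact_mod_cast nnat (K := ℚ_[3]) 128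
    have h1 : ‖M * (X + 16 * M)‖ < 1 := by
      rw [e]
      exact lsub hF (lmul' l3 (nadd (nadd (npow hX 2) (nmul (nmul i27 hmi) hX))
        (nmul i128 (npow hmi 2))))
    rwa [norm_mul, uM, one_mul] at h1
  · intro hU
    have hX : ‖X‖ ≤ 1 := by
      have : X = (X + 16 * M) - 16 * M := by ring
      rw [this]
      exact nsub hU.le (nmul i16 hmi)
    refine ⟨hX, ?_, ?_⟩
    · have h1 : ‖Y ^ 2‖ < 1 := by
        rw [he]
        have i25 : ‖(25 : ℚ_[3])‖ ≤ 1 := by exact_mod_cast nnat (K := ℚ_[3]) 25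
        exact lmul' (lmul hX hU) (nadd hX (nmul i25 hmi))
      rw [norm_pow] at h1
      by_contra h
      rw [not_lt] at h
      have := one_le_pow₀ h (n := 2)
      linarith
    · have e : 3 * X ^ 2 + 82 * M * X + 400 * (M : ℚ_[3]) ^ 2 = M * (X + 16 * M) +
        3 * (X ^ 2 + 27 * M * X + 128 * M ^ 2) := by ring
      have i27 : ‖(27 : ℚ_[3])‖ ≤ 1 := by exact_mod_cast nnat (K := ℚ_[3]) 27
      have i128 : ‖(128 : ℚ_[3])‖ ≤ 1 := by exact_mod_cast nnat (K := ℚ_[3]) 128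
      rw [e]
      exact ladd (lmul hmi hU) (lmul' l3 (nadd (nadd (npow hX 2) (nmul (nmul i27 hmi) hX))
        (nmul i128 (npow hmi 2))))

theorem z3_sq : ∀ a b : ZMod 3, a ^ 2 + b ^ 2 = 0 → b = 0 := by decide

theorem tam3 (hM4 : M % 4 = 1) (hM3 : M % 3 = 1) : tam (WD M) 3 = 2 := by
  have hW := isWD (K := ℚ_[3]) M hM4
  have h2 : (2 : ℚ_[3]) ≠ 0 := two_ne_zero
  have h30 : (30 : ℚ_[3]) ≠ 0 := by norm_num
  have hM0 : (M : ℚ_[3]) ≠ 0 := by
    have : M ≠ 0 := by omega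
    exact_mod_cast this
  have uM : ‖(M : ℚ_[3])‖ = 1 := t_unit3 (by omega)
  have u16 : ‖(16 : ℚ_[3])‖ = 1 := norm16 (by norm_num)
  have i16 : ‖(16 : ℚ_[3])‖ ≤ 1 := u16.le
  obtain ⟨T, hT⟩ := exists_pt hW h2 h30 hM0 (X := -16 * M) (Y := 0) (by ring)
  have hTn : T ∉ E0 (WD M) 3 := (mem3 hM4 hM3 hT).2 (by
    have : -16 * (M : ℚ_[3]) + 16 * M = 0 := by ring
    rw [this, norm_zero]
    norm_num)
  rw [Pool.Agent.Y700.tam, AddSubgroup.index_eq_two_iff_exists_notMem_and]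
  refine ⟨T, hTn, fun P => ?_⟩
  by_cases hP : P ∈ E0 (WD M) 3
  · exact Or.inr hP
  left
  have hP0 : P ≠ 0 := fun h0 => hP (by rw [h0]; exact zero_mem _)
  obtain ⟨X, Y, hat⟩ := exists_at (M : ℚ_[3]) hP0
  have hU := (mem3 hM4 hM3 hat).1 hP
  have he := hat.eqn hW
  obtain ⟨u, hu, hu1⟩ := t_div3 hU
  have hXu : X = 3 * u - 16 * M := by linear_combination hu
  -- `u` is not a unit
  have hul : ‖u‖ < 1 := by
    refine lt_of_le_of_ne hu1 fun hu2 => ?_
    have hY : ‖Y‖ < 1 := ((mem_E0 hM4 (by norm_num) hat).1 hP).2.1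
    obtain ⟨w, hw, hw1⟩ := t_div3 hY
    have e1 : w ^ 2 = (3 * u - 16 * M) * u * (u + 3 * M) := by
      have h9 : (9 : ℚ_[3]) ≠ 0 := by norm_num
      apply mul_left_cancel₀ h9
      rw [hXu, hw] at he
      linear_combination he
    obtain ⟨a, rfl⟩ : ∃ a : ℤ_[3], (a : ℚ_[3]) = w := ⟨⟨w, hw1⟩, rfl⟩
    obtain ⟨b, rfl⟩ : ∃ b : ℤ_[3], (b : ℚ_[3]) = u := ⟨⟨u, hu1⟩, rfl⟩
    have e2 : a ^ 2 = (3 * b - 16 * M) * b * (b + 3 * M) := by
      apply Subtype.coe_injective
      push_cast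
      exact e1
    have e3 := congrArg PadicInt.toZMod e2
    simp only [map_mul, map_pow, map_sub, map_add, map_ofNat, map_intCast] at e3
    have hM' : ((M : ℤ) : ZMod 3) = 1 := by
      rw [← Int.cast_one, ZMod.intCast_eq_intCast_iff]
      exact hM3
    rw [hM'] at e3
    have h3 : (3 : ZMod 3) = 0 := by decide
    have h16 : (16 : ZMod 3) = 1 := by decide
    rw [h3, h16] at e3
    have e4 : (PadicInt.toZMod a) ^ 2 + (PadicInt.toZMod b) ^ 2 = 0 := by
      linear_combination e3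
    have e5 := z3_sq _ _ e4
    have e6 := toZMod_eq_zero.1 e5
    rw [PadicInt.norm_def] at e6
    linarith
  by_cases hXe : X = -16 * M
  · have hY : Y = 0 := by
      rw [hXe] at he
      have h4 : Y ^ 2 = 0 := by
        rw [he]
        ring
      exact pow_eq_zero_iff two_ne_zero |>.1 h4
    rw [hY, hXe] at hat
    rw [hat.ext h2 hT, two_tors hW h2 hT]
    exact AddSubgroup.zero_mem _
  · obtain ⟨X3, Y3, h3, h4⟩ := hat.addT hW h2 hT hXe
    by_contra hcon
    have h5 := (mem3 hM4 hM3 h3).1 hcon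
    have e5 : (X3 + 16 * M) * (3 * u) = -(16 * 9) * M ^ 2 := by
      rw [hXu] at h4
      linear_combination h4
    have u9 : ‖(9 : ℚ_[3])‖ = 1 / 9 := by
      have : (9 : ℚ_[3]) = 3 ^ 2 := by norm_num
      rw [this, norm_pow, t_n3]
      norm_num
    have e6 := congrArg norm e5
    rw [norm_mul, norm_mul, norm_mul, norm_neg, norm_mul, norm_pow, u16, u9, uM, t_n3] at e6
    have h7 := t_lt3 hul
    have h8 : ‖X3 + 16 * M‖ * ‖u‖ = 1 / 3 := by linarith
    have h9 : 0 < ‖u‖ := by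
      by_contra h
      have : ‖u‖ = 0 := le_antisymm (not_lt.1 h) (norm_nonneg _)
      rw [this, mul_zero] at h8
      norm_num at h8
    have h10 : ‖X3 + 16 * M‖ * ‖u‖ < 1 * ‖u‖ := mul_lt_mul_of_pos_right h5 h9
    linarith

end three

section five

variable {M : ℤ}

instance fact_five : Fact (Nat.Prime 5) := ⟨by norm_num⟩

theorem t_n5 : ‖(5 : ℚ_[5])‖ = 1 / 5 := by
  have := Padic.norm_p (p := 5)
  simpa using this

theorem t_lt5 {x : ℚ_[5]} (h : ‖x‖ < 1) : ‖x‖ ≤ 1 / 5 := by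
  have := norm_le_inv 5 h
  simpa using this

theorem t_unit5 {n : ℤ} (h : ¬ (5 : ℤ) ∣ n) : ‖(n : ℚ_[5])‖ = 1 := unit_int (q := 5) (by exact_mod_cast h)

theorem t_div5 {x : ℚ_[5]} (h : ‖x‖ < 1) : ∃ u : ℚ_[5], x = 5 * u ∧ ‖u‖ ≤ 1 := by
  refine ⟨x / 5, by rw [mul_div_cancel₀]; norm_num, ?_⟩
  rw [norm_div, t_n5, div_le_iff₀ (by norm_num)]
  linarith [t_lt5 h]

theorem sq_lt {x : ℚ_[5]} (h : ‖x ^ 2‖ < 1) : ‖x‖ < 1 := by
  rw [norm_pow] at h
  by_contra h1
  rw [not_lt] at h1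
  have := one_le_pow₀ h1 (n := 2)
  linarith

/-- at `5` the points outside `E⁰` are those with `|X| < 1` -/
theorem mem5 (hM4 : M % 4 = 1) (hM5 : ¬ (5 : ℤ) ∣ M) {P : PtP (WD M) 5} {X Y : ℚ_[5]}
    (hP : At (M : ℚ_[5]) P X Y) : P ∉ E0 (WD M) 5 ↔ ‖X‖ < 1 := by
  have hW := isWD (K := ℚ_[5]) M hM4
  have he := hP.eqn hW
  have hmi := nint (q := 5) M
  have l5 : ‖(5 : ℚ_[5])‖ < 1 := by rw [t_n5]; norm_num
  have i16 : ‖(16 : ℚ_[5])‖ ≤ 1 := by exact_mod_cast nnat (K := ℚ_[5]) 16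
  have i25 : ‖(25 : ℚ_[5])‖ ≤ 1 := by exact_mod_cast nnat (K := ℚ_[5]) 25
  have i82 : ‖(82 : ℚ_[5])‖ ≤ 1 := by exact_mod_cast nnat (K := ℚ_[5]) 82
  have i80 : ‖(80 : ℚ_[5])‖ ≤ 1 := by exact_mod_cast nnat (K := ℚ_[5]) 80
  have u3 : ‖(3 : ℚ_[5])‖ = 1 := by exact_mod_cast t_unit5 (n := 3) (by norm_num)
  have uM : ‖(M : ℚ_[5])‖ = 1 := t_unit5 hM5
  rw [mem_E0 hM4 (by norm_num) hP]
  constructor
  · rintro ⟨hX, hY, hF⟩
    -- X (3 X + 82 M) small, and X² (X + 16 M) small; 3 (X + 16 M) - (3 X + 82 M) = -34 M unit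
    have hYY : ‖Y ^ 2‖ < 1 := by
      rw [pow_two]
      exact lmul hY.le hY
    have h1 : ‖X * (3 * X + 82 * M)‖ < 1 := by
      have e : X * (3 * X + 82 * M) = (3 * X ^ 2 + 82 * M * X + 400 * (M : ℚ_[5]) ^ 2) -
        5 * (80 * M ^ 2) := by ring
      rw [e]
      exact lsub hF (lmul' l5 (nmul i80 (npow hmi 2)))
    have h3 : ‖X ^ 2 * (X + 16 * M)‖ < 1 := by
      have e : X ^ 2 * (X + 16 * M) = Y ^ 2 - 5 * (5 * M * X * (X + 16 * M)) := by
        rw [he]
        ring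
      rw [e]
      exact lsub hYY (lmul' l5 (nmul (nmul (nmul l5.le hmi) hX) (nadd hX (nmul i16 hmi))))
    have u34 : ‖(34 : ℚ_[5])‖ = 1 := by exact_mod_cast t_unit5 (n := 34) (by norm_num)
    have h4 : ‖34 * M * X ^ 2‖ < 1 := by
      have e : 34 * M * X ^ 2 = X * (X * (3 * X + 82 * M)) - 3 * (X ^ 2 * (X + 16 * M)) := by ring
      rw [e]
      exact lsub (lmul hX h1) (lmul u3.le h3)
    rw [norm_mul, norm_mul, u34, uM, one_mul, one_mul] at h4
    exact sq_lt h4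
  · intro hX
    refine ⟨hX.le, ?_, ?_⟩
    · apply sq_lt
      rw [he]
      exact lmul' (lmul' hX (nadd hX.le (nmul i16 hmi))) (nadd hX.le (nmul i25 hmi))
    · have e : 3 * X ^ 2 + 82 * M * X + 400 * (M : ℚ_[5]) ^ 2 = X * (3 * X + 82 * M) +
        5 * (80 * M ^ 2) := by ring
      rw [e]
      exact ladd (lmul' hX (nadd (nmul u3.le hX.le) (nmul i82 hmi)))
        (lmul' l5 (nmul i80 (npow hmi 2)))

/-- a generator of a cyclic group of order four -/
theorem index_four {G : Type} [AddCommGroup G] (H : AddSubgroup G) (Q : G) (h2 : Q + Q ∉ H)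
    (h4 : Q + Q + (Q + Q) ∈ H)
    (hc : ∀ P, P ∈ H ∨ P - Q ∈ H ∨ P + Q ∈ H ∨ P - (Q + Q) ∈ H) : H.index = 4 := by
  have hm : ∀ P : G, (QuotientAddGroup.mk P : G ⧸ H) = 0 ↔ P ∈ H := fun P =>
    QuotientAddGroup.eq_zero_iff P
  have ho : addOrderOf (QuotientAddGroup.mk Q : G ⧸ H) = 2 ^ (1 + 1) := by
    apply addOrderOf_eq_prime_pow
    · rw [← QuotientAddGroup.mk_nsmul, hm]
      rw [pow_one, two_nsmul]
      exact h2
    · rw [← QuotientAddGroup.mk_nsmul, hm]
      have : (2 ^ (1 + 1)) • Q = Q + Q + (Q + Q) := by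
        rw [show (2 ^ (1 + 1) : ℕ) = 2 + 2 by norm_num, add_nsmul, two_nsmul]
      rw [this]
      exact h4
  have ht : ∀ g : G ⧸ H, g ∈ AddSubgroup.zmultiples (QuotientAddGroup.mk Q : G ⧸ H) := by
    intro g
    induction g using QuotientAddGroup.induction_on with
    | H P =>
      rcases hc P with h | h | h | h
      · rw [(hm P).2 h]
        exact zero_mem _
      · have h5 : (QuotientAddGroup.mk P : G ⧸ H) = QuotientAddGroup.mk Q := by
          rw [QuotientAddGroup.eq, ← neg_mem_iff]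
          have : -(-P + Q) = P - Q := by abel
          rw [this]
          exact h
        rw [h5]
        exact AddSubgroup.mem_zmultiples _
      · have h5 : (QuotientAddGroup.mk P : G ⧸ H) = QuotientAddGroup.mk (-Q) := by
          rw [QuotientAddGroup.eq, ← neg_mem_iff]
          have : -(-P + -Q) = P + Q := by abel
          rw [this]
          exact h
        rw [h5, QuotientAddGroup.mk_neg]
        exact neg_mem (AddSubgroup.mem_zmultiples _)
      · have h5 : (QuotientAddGroup.mk P : G ⧸ H) = QuotientAddGroup.mk (Q + Q) := by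
          rw [QuotientAddGroup.eq, ← neg_mem_iff]
          have : -(-P + (Q + Q)) = P - (Q + Q) := by abel
          rw [this]
          exact h
        rw [h5, QuotientAddGroup.mk_add]
        exact add_mem (AddSubgroup.mem_zmultiples _) (AddSubgroup.mem_zmultiples _)
  have htop : AddSubgroup.zmultiples (QuotientAddGroup.mk Q : G ⧸ H) = ⊤ :=
    (AddSubgroup.eq_top_iff' _).2 ht
  rw [AddSubgroup.index]
  have h6 : Nat.card (AddSubgroup.zmultiples (QuotientAddGroup.mk Q : G ⧸ H)) = 2 ^ (1 + 1) := by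
    rw [Nat.card_zmultiples, ho]
  rw [htop, AddSubgroup.card_top] at h6
  rw [h6]
  norm_num

theorem z5_a : ∀ w u w0 M : ZMod 5, w ^ 2 = M * u ^ 2 → w0 ^ 2 = M → w = w0 * u ∨ w = -(w0 * u) := by
  decide

theorem tam5 (hM4 : M % 4 = 1) (hM5 : M % 5 = 1 ∨ M % 5 = 4) : tam (WD M) 5 = 4 := by
  have hW := isWD (K := ℚ_[5]) M hM4
  have h2 : (2 : ℚ_[5]) ≠ 0 := two_ne_zero
  have h30 : (30 : ℚ_[5]) ≠ 0 := by norm_num
  have hM5' : ¬ (5 : ℤ) ∣ M := by omega
  have hM0 : (M : ℚ_[5]) ≠ 0 := by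
    have : M ≠ 0 := by omega
    exact_mod_cast this
  have uM : ‖(M : ℚ_[5])‖ = 1 := t_unit5 hM5'
  have hmi := uM.le
  have u2 : ‖(2 : ℚ_[5])‖ = 1 := norm2 (by norm_num)
  have u4 : ‖(4 : ℚ_[5])‖ = 1 := norm4 (by norm_num)
  have u16 : ‖(16 : ℚ_[5])‖ = 1 := norm16 (by norm_num)
  have l5 : ‖(5 : ℚ_[5])‖ < 1 := by rw [t_n5]; norm_num
  have i41 : ‖(41 : ℚ_[5])‖ ≤ 1 := by exact_mod_cast nnat (K := ℚ_[5]) 41
  -- the square root
  obtain ⟨w0, hw0⟩ : ∃ w0 : ℚ_[5], w0 ^ 2 = (1 + 5 * M) * (5 + 16 * M) := by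
    have hj : jacobiSym ((1 + 5 * M) * (5 + 16 * M)) (5 : ℕ) = 1 := by
      rw [jacobiSym.mod_left]
      rcases hM5 with h | h
      · have : (1 + 5 * M) * (5 + 16 * M) % ((5 : ℕ) : ℤ) = 1 := by
          push_cast
          rw [Int.mul_emod, show (1 + 5 * M) % 5 = 1 by omega, show (5 + 16 * M) % 5 = 1 by omega]
          norm_num
        rw [this]
        norm_num
      · have : (1 + 5 * M) * (5 + 16 * M) % ((5 : ℕ) : ℤ) = 4 := by
          push_cast
          rw [Int.mul_emod, show (1 + 5 * M) % 5 = 1 by omega, show (5 + 16 * M) % 5 = 4 by omega]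
          norm_num
        rw [this]
        norm_num
    have hnd : ¬ ((5 : ℕ) : ℤ) ∣ (1 + 5 * M) * (5 + 16 * M) := by
      intro h
      have h5 : Prime ((5 : ℕ) : ℤ) := Nat.prime_iff_prime_int.1 (by norm_num)
      rcases h5.dvd_or_dvd h with h | h <;> omega
    obtain ⟨r, hr⟩ := sq_of_jac (p := 5) (by norm_num) hnd hj
    refine ⟨r, ?_⟩
    push_cast at hr
    rw [hr]
    ring
  have hw0u : ‖w0‖ = 1 := by
    have h1 : ‖w0 ^ 2‖ = 1 := by
      rw [hw0]
      have h3 : ‖(((1 + 5 * M) * (5 + 16 * M) : ℤ) : ℚ_[5])‖ = 1 := by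
        apply t_unit5
        intro h
        have h5 : Prime (5 : ℤ) := by exact_mod_cast Nat.prime_iff_prime_int.1 (by norm_num : Nat.Prime 5)
        rcases h5.dvd_or_dvd h with h | h <;> omega
      push_cast at h3
      exact h3
    rw [norm_pow] at h1
    exact (pow_eq_one_iff_of_nonneg (norm_nonneg _) two_ne_zero).1 h1
  -- the generator
  obtain ⟨Q, hQ⟩ := exists_pt hW h2 h30 hM0 (X := 5) (Y := 5 * w0) (by
    linear_combination 25 * hw0)
  obtain ⟨T, hT⟩ := exists_pt hW h2 h30 hM0 (X := 0) (Y := 0) (by ring)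
  have hTn : T ∉ E0 (WD M) 5 := (mem5 hM4 hM5' hT).2 (by rw [norm_zero]; norm_num)
  have hTT := two_tors hW h2 hT
  have i400 : ‖(400 : ℚ_[5])‖ ≤ 1 / 25 := by
    have : (400 : ℚ_[5]) = 16 * (5 * 5) := by norm_num
    rw [this, norm_mul, norm_mul, u16, t_n5]
    norm_num
  have e400 : ‖(400 : ℚ_[5])‖ = 1 / 25 := by
    have : (400 : ℚ_[5]) = 16 * (5 * 5) := by norm_num
    rw [this, norm_mul, norm_mul, u16, t_n5]
    norm_num
  -- points with `|X| ≤ 1/25`
  have far : ∀ (P : PtP (WD M) 5) (X Y : ℚ_[5]), At (M : ℚ_[5]) P X Y → ‖X‖ ≤ 1 / 25 →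
      P + T ∈ E0 (WD M) 5 := by
    intro P X Y hP hX
    by_cases hX0 : X = 0
    · have hY : Y = 0 := by
        have he := hP.eqn hW
        rw [hX0] at he
        have h4 : Y ^ 2 = 0 := by
          rw [he]
          ring
        exact pow_eq_zero_iff two_ne_zero |>.1 h4
      rw [hY, hX0] at hP
      rw [hP.ext h2 hT, hTT]
      exact zero_mem _
    · obtain ⟨X3, Y3, h3, h4⟩ := hP.addT hW h2 hT hX0
      by_contra hcon
      have h5 := (mem5 hM4 hM5' h3).1 hcon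
      have e5 : X3 * X = 400 * M ^ 2 := by linear_combination h4
      have e6 := congrArg norm e5
      rw [norm_mul, norm_mul, norm_pow, e400, uM] at e6
      have h9 : 0 < ‖X‖ := norm_pos_iff.2 hX0
      have h10 : ‖X3‖ * ‖X‖ < 1 * ‖X‖ := mul_lt_mul_of_pos_right h5 h9
      norm_num at e6
      linarith
  -- the double of the generator
  have hw0n : w0 ≠ 0 := by
    intro h
    rw [h, norm_zero] at hw0u
    norm_num at hw0u
  obtain ⟨Y2, hQ2⟩ := hQ.dbl hW h2 (mul_ne_zero (by norm_num) hw0n)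
  have hX2 : ‖((5 : ℚ_[5]) ^ 2 - 400 * M ^ 2) ^ 2 / (4 * (5 * w0) ^ 2)‖ ≤ 1 / 25 := by
    have e : ((5 : ℚ_[5]) ^ 2 - 400 * M ^ 2) ^ 2 / (4 * (5 * w0) ^ 2) =
        5 ^ 2 * ((1 - 16 * M ^ 2) ^ 2 / (4 * w0 ^ 2)) := by
      field_simp
      ring
    rw [e, norm_mul, norm_pow, t_n5, norm_div, norm_mul, u4, norm_pow w0, hw0u]
    have h1 : ‖(1 - 16 * (M : ℚ_[5]) ^ 2) ^ 2‖ ≤ 1 :=
      npow (nsub norm_one.le (nmul u16.le (npow hmi 2))) 2
    norm_num at h1 ⊢
    exact h1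
  have hQ2n : Q + Q ∉ E0 (WD M) 5 := (mem5 hM4 hM5' hQ2).2 (lt_of_le_of_lt hX2 (by norm_num))
  have hQ2T := far _ _ _ hQ2 hX2
  -- the difference of two points with `|X| = 1/5` and the same sign
  have diff : ∀ (P R : PtP (WD M) 5) (u w w' : ℚ_[5]), At (M : ℚ_[5]) P (5 * u) (5 * w) →
      At (M : ℚ_[5]) R 5 (5 * w') → ‖u‖ = 1 → ‖w'‖ = 1 → w' ^ 2 = (1 + 5 * M) * (5 + 16 * M) →
      ‖w‖ ≤ 1 → ‖w + w' * u‖ < 1 → P + R ∈ E0 (WD M) 5 := by
    intro P R u w w' hP hR hu hw' hw'2 hw hww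
    have heP := hP.eqn hW
    have h5n : (5 : ℚ_[5]) ≠ 0 := by norm_num
    by_cases hu1 : u = 1
    · -- then `w = - w'`
      have e1 : (w + w') * (w - w') = 0 := by
        have h25 : (25 : ℚ_[5]) ≠ 0 := by norm_num
        apply mul_left_cancel₀ h25
        rw [hu1] at heP
        linear_combination heP - 25 * hw'2
      have hne : w - w' ≠ 0 := by
        intro h
        have h3 : w = w' := sub_eq_zero.1 h
        rw [hu1, mul_one, h3] at hww
        have h6 : w' + w' = 2 * w' := by ring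
        rw [h6, norm_mul, u2, one_mul, hw'] at hww
        exact lt_irrefl _ hww
      have h4 : w = -w' := by
        have := (mul_eq_zero.1 e1).resolve_right hne
        linear_combination this
      rw [hu1, h4, mul_one] at hP
      have h7 : P = -R := hP.ext h2 (by simpa using hR.neg hW)
      rw [h7, neg_add_cancel]
      exact zero_mem _
    · have hne : 5 * u ≠ 5 := by
        intro h
        apply hu1
        apply mul_left_cancel₀ h5n
        linear_combination h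
      obtain ⟨Y3, h3⟩ := hP.add hW h2 hR hne
      by_contra hcon
      have h4 := (mem5 hM4 hM5' h3).1 hcon
      have hu1' : u - 1 ≠ 0 := sub_ne_zero.2 hu1
      obtain ⟨l, hl⟩ : ∃ l : ℚ_[5], l = (5 * w - 5 * w') / (5 * u - 5) := ⟨_, rfl⟩
      have hl1 : l * (u - 1) = w - w' := by
        have h6 : 5 * u - 5 ≠ 0 := sub_ne_zero.2 hne
        have h7 : l * (5 * u - 5) = 5 * w - 5 * w' := by rw [hl, div_mul_cancel₀ _ h6]
        apply mul_left_cancel₀ h5n
        linear_combination h7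
      rw [← hl] at h4
      -- `l²` is congruent to `41 M`
      have h8 : ‖l ^ 2 - 41 * M‖ < 1 := by
        have e : l ^ 2 - 41 * M = (l ^ 2 - 41 * M - 5 * u - 5) + 5 * (u + 1) := by ring
        rw [e]
        exact ladd h4 (lmul' l5 (nadd hu.le norm_one.le))
      have h9 : ‖l‖ ≤ 1 := by
        have h10 : ‖l ^ 2‖ ≤ 1 := by
          have e : l ^ 2 = (l ^ 2 - 41 * M) + 41 * M := by ring
          rw [e]
          exact nadd h8.le (nmul i41 hmi)
        rw [norm_pow] at h10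
        by_contra h
        rw [not_le] at h
        have := one_lt_pow₀ h two_ne_zero
        linarith
      -- `(w - w')² = 41 M (u - 1)²` and `(w - w')² = w'² (u + 1)²` modulo `5`
      have i1 : ‖u - 1‖ ≤ 1 := nsub hu.le norm_one.le
      have e1 : ‖(w - w') ^ 2 - 41 * M * (u - 1) ^ 2‖ < 1 := by
        have e : (w - w') ^ 2 - 41 * M * (u - 1) ^ 2 = (u - 1) ^ 2 * (l ^ 2 - 41 * M) := by
          rw [← hl1]
          ring
        rw [e]
        exact lmul (npow i1 2) h8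
      have e2 : ‖(w - w') ^ 2 - w' ^ 2 * (u + 1) ^ 2‖ < 1 := by
        have e : (w - w') ^ 2 - w' ^ 2 * (u + 1) ^ 2 = (w + w' * u) * (w - w' * u - 2 * w') := by ring
        rw [e]
        exact lmul' hww (nsub (nsub hw (nmul hw'.le hu.le)) (nmul u2.le hw'.le))
      have e3 : ‖w' ^ 2 - 16 * M‖ < 1 := by
        have i21 : ‖(81 : ℚ_[5])‖ ≤ 1 := by exact_mod_cast nnat (K := ℚ_[5]) 81
        have e : w' ^ 2 - 16 * M = 5 * (1 + 5 * M + 16 * M ^ 2) := by
          rw [hw'2]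
          ring
        rw [e]
        refine lmul' l5 (nadd (nadd norm_one.le (nmul l5.le hmi)) (nmul u16.le (npow hmi 2)))
      -- the conclusion `64 M u = 0` modulo `5`
      have e4 : ‖64 * M * u‖ < 1 := by
        have e : 64 * M * u = ((w - w') ^ 2 - 41 * M * (u - 1) ^ 2) -
            ((w - w') ^ 2 - w' ^ 2 * (u + 1) ^ 2) - (w' ^ 2 - 16 * M) * (u + 1) ^ 2 +
            5 * (5 * M * (u - 1) ^ 2) := by ring
        rw [e]
        have i2 : ‖u + 1‖ ≤ 1 := nadd hu.le norm_one.le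
        exact ladd (lsub (lsub e1 e2) (lmul' e3 (npow i2 2)))
          (lmul' l5 (nmul (nmul l5.le hmi) (npow i1 2)))
      have u64 : ‖(64 : ℚ_[5])‖ = 1 := by exact_mod_cast t_unit5 (n := 64) (by norm_num)
      rw [norm_mul, norm_mul, u64, uM, hu] at e4
      norm_num at e4
  rw [Pool.Agent.Y700.tam]
  refine index_four (E0 (WD M) 5) Q hQ2n ?_ ?_
  · -- `4 Q`
    have h1 : Q + Q + (Q + Q) = (Q + Q + T) + (Q + Q + T) := by
      calc Q + Q + (Q + Q) = Q + Q + (Q + Q) + 0 := (add_zero _).symm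
        _ = Q + Q + (Q + Q) + (T + T) := by rw [hTT]
        _ = (Q + Q + T) + (Q + Q + T) := by abel
    rw [h1]
    exact add_mem hQ2T hQ2T
  · intro P
    by_cases hP : P ∈ E0 (WD M) 5
    · exact Or.inl hP
    right
    have hP0 : P ≠ 0 := fun h0 => hP (by rw [h0]; exact zero_mem _)
    obtain ⟨X, Y, hat⟩ := exists_at (M : ℚ_[5]) hP0
    have hX := (mem5 hM4 hM5' hat).1 hP
    obtain ⟨u, hu, hu1⟩ := t_div5 hX
    rcases lt_or_eq_of_le hu1 with hul | hue
    · -- `|X| ≤ 1/25`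
      right; right
      have h3 : ‖X‖ ≤ 1 / 25 := by
        rw [hu, norm_mul, t_n5]
        have := t_lt5 hul
        linarith
      have h4 := far P X Y hat h3
      have h5 : P - (Q + Q) = (P + T) - (Q + Q + T) := by abel
      rw [h5]
      exact sub_mem h4 hQ2T
    · have hY : ‖Y‖ < 1 := ((mem_E0 hM4 (by norm_num) hat).1 hP).2.1
      obtain ⟨w, hw, hw1⟩ := t_div5 hY
      rw [hu, hw] at hat
      have he := hat.eqn hW
      have e1 : w ^ 2 = u * (5 * u + 16 * M) * (u + 5 * M) := by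
        have h25 : (25 : ℚ_[5]) ≠ 0 := by norm_num
        apply mul_left_cancel₀ h25
        linear_combination he
      -- the sign
      have hsign : ‖w + w0 * u‖ < 1 ∨ ‖w + (-w0) * u‖ < 1 := by
        obtain ⟨a, rfl⟩ : ∃ a : ℤ_[5], (a : ℚ_[5]) = w := ⟨⟨w, hw1⟩, rfl⟩
        obtain ⟨b, rfl⟩ : ∃ b : ℤ_[5], (b : ℚ_[5]) = u := ⟨⟨u, hu1⟩, rfl⟩
        obtain ⟨c, rfl⟩ : ∃ c : ℤ_[5], (c : ℚ_[5]) = w0 := ⟨⟨w0, hw0u.le⟩, rfl⟩
        have e2 : a ^ 2 = b * (5 * b + 16 * M) * (b + 5 * M) := by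
          apply Subtype.coe_injective
          push_cast
          exact e1
        have e3 : c ^ 2 = (1 + 5 * M) * (5 + 16 * M) := by
          apply Subtype.coe_injective
          push_cast
          exact hw0
        have e4 := congrArg PadicInt.toZMod e2
        have e5 := congrArg PadicInt.toZMod e3
        simp only [map_mul, map_pow, map_sub, map_add, map_ofNat, map_intCast, map_one] at e4 e5
        have h5 : (5 : ZMod 5) = 0 := by decide
        have h16 : (16 : ZMod 5) = 1 := by decide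
        rw [h5, h16] at e4 e5
        rcases z5_a (PadicInt.toZMod a) (PadicInt.toZMod b) (PadicInt.toZMod c) (M : ZMod 5)
          (by rw [e4]; ring) (by rw [e5]; ring) with h | h
        · right
          have h6 : PadicInt.toZMod (a - c * b) = 0 := by
            rw [map_sub, map_mul, h, sub_self]
          have h7 := toZMod_eq_zero.1 h6
          rw [PadicInt.norm_def] at h7
          push_cast at h7
          have : (a : ℚ_[5]) + -(c : ℚ_[5]) * b = a - c * b := by ring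
          rw [this]
          exact h7
        · left
          have h6 : PadicInt.toZMod (a + c * b) = 0 := by
            rw [map_add, map_mul, h]
            ring
          have h7 := toZMod_eq_zero.1 h6
          rw [PadicInt.norm_def] at h7
          push_cast at h7
          exact h7
      rcases hsign with h | h
      · right; left
        exact diff P Q u w w0 hat hQ hue hw0u hw0 hw1 h
      · left
        rw [sub_eq_add_neg]
        refine diff P (-Q) u w (-w0) hat ?_ hue (by rw [norm_neg]; exact hw0u) ?_ hw1 h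
        · have := hQ.neg hW
          have h6 : -(5 * w0) = 5 * -w0 := by ring
          rw [← h6]
          exact this
        · rw [neg_sq]
          exact hw0

end five

end Pool.Agent.H468.X15
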