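import Mathlib

/-!
# The sign of the quadratic Gauss sum, part 1: the product of Gauss

For odd `N` and a primitive `N`-th root of unity `ζ`,
`∑_{n mod N} ζ^(n²) = ∏_{j < (N - 1) / 2} (ζ^(2j+1) - ζ^(-(2j+1)))`, by Gaussian binomials.
-/

set_option autoImplicit false
set_option linter.all false

namespace Pool.Agent.H468.X15.GS

open Finset

section poly

variable {R : Type} [CommRing R] (q : R)

/-- the Gaussian binomial coefficient `[a + b, a]` -/
def gb : ℕ → ℕ → R
  | 0, _ => 1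
  | (_ + 1), 0 => 1
  | (a + 1), (b + 1) => gb a (b + 1) + q ^ (a + 1) * gb (a + 1) b

theorem gb_zero (a : ℕ) : gb q a 0 = 1 := by
  cases a <;> simp [gb]

theorem gb_zero' (b : ℕ) : gb q 0 b = 1 := by simp [gb]

theorem gb_succ (a b : ℕ) : gb q (a + 1) (b + 1) = gb q a (b + 1) + q ^ (a + 1) * gb q (a + 1) b := by
  rw [gb]

/-- the absorption identities -/
theorem gb_abs : ∀ n a b : ℕ, a + b = n →
    (1 - q ^ (a + 1)) * gb q (a + 1) b = (1 - q ^ (a + b + 1)) * gb q a b ∧
    (1 - q ^ (b + 1)) * gb q a (b + 1) = (1 - q ^ (a + b + 1)) * gb q a b := by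
  intro n
  induction n using Nat.strong_induction_on with
  | _ n ih =>
    intro a b hab
    constructor
    · rcases b with _ | b
      · rw [gb_zero, gb_zero, add_zero]
      · obtain ⟨h1, h2⟩ := ih (a + b) (by omega) a b rfl
        rw [gb_succ]
        have e : a + (b + 1) + 1 = a + b + 1 + 1 := by ring
        rw [e]
        linear_combination q ^ (a + 1) * h1 - q ^ (a + 1) * h2
    · rcases a with _ | a
      · rw [gb_zero', gb_zero']
        ring
      · obtain ⟨h1, h2⟩ := ih (a + b) (by omega) a b rfl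
        rw [gb_succ]
        have e : a + 1 + b + 1 = a + b + 1 + 1 := by ring
        rw [e]
        linear_combination h2 - h1

theorem gb_a (a b : ℕ) : (1 - q ^ (a + 1)) * gb q (a + 1) b = (1 - q ^ (a + b + 1)) * gb q a b :=
  (gb_abs q (a + b) a b rfl).1

theorem gb_b (a b : ℕ) : (1 - q ^ (b + 1)) * gb q a (b + 1) = (1 - q ^ (a + b + 1)) * gb q a b :=
  (gb_abs q (a + b) a b rfl).2

/-- the second rule of Pascal -/
theorem gb_succ' : ∀ n a b : ℕ, a + b = n →
    gb q (a + 1) (b + 1) = gb q (a + 1) b + q ^ (b + 1) * gb q a (b + 1) := by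
  intro n a b hab
  have h1 := gb_a q a b
  have h2 := gb_b q a b
  rw [gb_succ]
  linear_combination h2 - h1

/-- the alternating sum -/
def alt (m : ℕ) : R := ∑ x ∈ antidiagonal m, (-1) ^ x.1 * gb q x.1 x.2

theorem alt_zero : alt q 0 = 1 := by
  simp [alt, gb_zero']

theorem alt_one : alt q 1 = 0 := by
  unfold alt
  rw [Finset.Nat.antidiagonal_succ]
  simp [gb_zero', gb_zero]

/-- the recursion -/
theorem alt_succ (m : ℕ) : alt q (m + 2) = (1 - q ^ (m + 1)) * alt q m := by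
  -- `alt (m+2) = alt (m+1) - ∑ (-1)^a q^b gb a b` over `a + b = m + 1`
  have h1 : alt q (m + 2) = ∑ x ∈ antidiagonal (m + 1), (-1) ^ x.1 * ((1 - q ^ x.2) * gb q x.1 x.2) := by
    unfold alt
    rw [Finset.Nat.antidiagonal_succ_succ']
    rw [sum_cons, sum_cons, sum_map]
    simp only [Function.Embedding.prodMap, Function.Embedding.coeFn_mk, Prod.map, Nat.succ_eq_add_one]
    -- the inner sum
    have h2 : ∑ x ∈ antidiagonal m, (-1 : R) ^ (x.1 + 1) * gb q (x.1 + 1) (x.2 + 1) =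
        (∑ x ∈ antidiagonal m, (-1 : R) ^ (x.1 + 1) * gb q (x.1 + 1) x.2) +
        ∑ x ∈ antidiagonal m, (-1 : R) ^ (x.1 + 1) * (q ^ (x.2 + 1) * gb q x.1 (x.2 + 1)) := by
      rw [← sum_add_distrib]
      refine sum_congr rfl fun x _ => ?_
      rw [gb_succ' q (x.1 + x.2) x.1 x.2 rfl]
      ring
    have h3 : ∑ x ∈ antidiagonal (m + 1), (-1 : R) ^ x.1 * ((1 - q ^ x.2) * gb q x.1 x.2) =
        (∑ x ∈ antidiagonal (m + 1), (-1 : R) ^ x.1 * gb q x.1 x.2) -
        ∑ x ∈ antidiagonal (m + 1), (-1 : R) ^ x.1 * (q ^ x.2 * gb q x.1 x.2) := by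
      rw [← sum_sub_distrib]
      refine sum_congr rfl fun x _ => ?_
      ring
    have h4 : ∑ x ∈ antidiagonal (m + 1), (-1 : R) ^ x.1 * gb q x.1 x.2 =
        1 + ∑ x ∈ antidiagonal m, (-1 : R) ^ (x.1 + 1) * gb q (x.1 + 1) x.2 := by
      rw [Finset.Nat.antidiagonal_succ, sum_cons, sum_map]
      simp [gb_zero']
    have h5 : ∑ x ∈ antidiagonal (m + 1), (-1 : R) ^ x.1 * (q ^ x.2 * gb q x.1 x.2) =
        (-1) ^ (m + 1) + ∑ x ∈ antidiagonal m, (-1 : R) ^ x.1 * (q ^ (x.2 + 1) * gb q x.1 (x.2 + 1)) := by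
      rw [Finset.Nat.antidiagonal_succ', sum_cons, sum_map]
      simp [gb_zero]
    rw [h3, h4, h5, h2]
    have h6 : ∑ x ∈ antidiagonal m, (-1 : R) ^ (x.1 + 1) * (q ^ (x.2 + 1) * gb q x.1 (x.2 + 1)) =
        -∑ x ∈ antidiagonal m, (-1 : R) ^ x.1 * (q ^ (x.2 + 1) * gb q x.1 (x.2 + 1)) := by
      rw [← sum_neg_distrib]
      refine sum_congr rfl fun x _ => ?_
      ring
    rw [h6, gb_zero', gb_zero]
    have h7 : (-1 : R) ^ (m + 2) = -(-1) ^ (m + 1) := by ring
    simp only [pow_zero, one_mul, mul_one]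
    rw [show (-1 : R) ^ (m + 1 + 1) = -(-1) ^ (m + 1) by ring]
    ring
  rw [h1, Finset.Nat.antidiagonal_succ', sum_cons, sum_map]
  simp only [Function.Embedding.prodMap, Function.Embedding.coeFn_mk, Prod.map, pow_zero, sub_self,
    zero_mul, mul_zero, zero_add, Nat.succ_eq_add_one, Function.Embedding.refl_apply]
  unfold alt
  rw [mul_sum]
  refine sum_congr rfl fun x hx => ?_
  rw [Finset.HasAntidiagonal.mem_antidiagonal] at hx
  rw [gb_b, hx]
  ring

theorem alt_even (n : ℕ) : alt q (2 * n) = ∏ j ∈ range n, (1 - q ^ (2 * j + 1)) := by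
  induction n with
  | zero => rw [mul_zero, alt_zero, prod_range_zero]
  | succ n ih =>
    rw [show 2 * (n + 1) = 2 * n + 2 by ring, alt_succ, ih, prod_range_succ, mul_comm]

end poly

section root

variable {K : Type} [Field K] {N : ℕ} {q : K}

/-- the coefficients at a root of unity -/
theorem gb_root (hq : IsPrimitiveRoot q N) (k : ℕ) : ∀ b : ℕ, k + b + 1 = N →
    q ^ (k * (k + 1) / 2) * gb q k b = (-1) ^ k := by
  induction k with
  | zero =>
    intro b _
    rw [gb_zero']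
    norm_num
  | succ k ih =>
    intro b hb
    have h1 := ih (b + 1) (by omega)
    have h2 : (1 - q ^ (k + 1)) * gb q (k + 1) b = (1 - q ^ (b + 1)) * gb q k (b + 1) := by
      rw [gb_a, gb_b]
    have h3 : q ^ (k + 1) * q ^ (b + 1) = 1 := by
      rw [← pow_add, show k + 1 + (b + 1) = N by omega]
      exact hq.pow_eq_one
    have h4 : (1 - q ^ (k + 1)) ≠ 0 := by
      intro h
      have h5 : q ^ (k + 1) = 1 := (sub_eq_zero.1 h).symm
      have h6 := (hq.pow_eq_one_iff_dvd _).1 h5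
      have h7 := Nat.le_of_dvd (by omega) h6
      omega
    have h5 : q ^ (k + 1) * gb q (k + 1) b = -gb q k (b + 1) := by
      apply mul_left_cancel₀ h4
      linear_combination q ^ (k + 1) * h2 - gb q k (b + 1) * h3
    have h6 : (k + 1) * (k + 1 + 1) / 2 = k * (k + 1) / 2 + (k + 1) := by
      have h7 : (k + 1) * (k + 1 + 1) = k * (k + 1) + (k + 1) * 2 := by ring
      rw [h7, Nat.add_mul_div_right _ _ (by norm_num)]
    rw [h6, pow_add, mul_assoc, h5, mul_neg, h1]
    ring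

/-- the product formula in terms of `q` -/
theorem sum_tri (hq : IsPrimitiveRoot q N) {n : ℕ} (hN : N = 2 * n + 1) :
    ∑ k ∈ range N, (q⁻¹) ^ (k * (k + 1) / 2) = ∏ j ∈ range n, (1 - q ^ (2 * j + 1)) := by
  rw [← alt_even, alt, Finset.Nat.sum_antidiagonal_eq_sum_range_succ_mk]
  rw [show (2 * n).succ = N by omega]
  refine sum_congr rfl fun k hk => ?_
  have hk' : k < N := mem_range.1 hk
  have hq0 : q ≠ 0 := hq.ne_zero (by omega)
  have h1 := gb_root hq k (2 * n - k) (by omega)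
  have h2 : q ^ (k * (k + 1) / 2) ≠ 0 := pow_ne_zero _ hq0
  simp only
  rw [inv_pow]
  apply mul_left_cancel₀ h2
  rw [mul_inv_cancel₀ h2]
  have h3 : q ^ (k * (k + 1) / 2) * ((-1) ^ k * gb q k (2 * n - k)) =
      (-1) ^ k * (q ^ (k * (k + 1) / 2) * gb q k (2 * n - k)) := by ring
  rw [h3, h1, ← pow_add, ← two_mul, pow_mul]
  norm_num

end root

/-- the sum of the squares -/
theorem sum_sq {K : Type} [Field K] {N n : ℕ} {z : K} (hz : IsPrimitiveRoot z N) (hN : N = 2 * n + 1) :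
    ∑ k ∈ range N, z ^ (k ^ 2) = ∏ j ∈ range n, (z ^ (2 * j + 1) - (z⁻¹) ^ (2 * j + 1)) := by
  have hz0 : z ≠ 0 := hz.ne_zero (by omega)
  have hq : IsPrimitiveRoot ((z⁻¹) ^ 2) N := by
    refine hz.inv.pow_of_coprime 2 ?_
    rw [Nat.coprime_two_left]
    exact ⟨n, hN⟩
  have h1 := sum_tri hq hN
  -- the left-hand side
  have h2 : ∀ k : ℕ, (((z⁻¹) ^ 2)⁻¹) ^ (k * (k + 1) / 2) = z ^ (k * (k + 1)) := by
    intro k
    have e0 : ((z⁻¹) ^ 2)⁻¹ = z ^ 2 := by rw [← inv_pow, inv_inv]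
    rw [e0, ← pow_mul]
    congr 1
    exact Nat.mul_div_cancel' (Nat.even_mul_succ_self k).two_dvd
  simp only [h2] at h1
  have h3 : ∀ k : ℕ, z ^ ((n + 1) ^ 2) * z ^ (k * (k + 1)) = z ^ ((k + (n + 1)) ^ 2) := by
    intro k
    rw [← pow_add]
    have e : (k + (n + 1)) ^ 2 = (n + 1) ^ 2 + k * (k + 1) + N * k := by
      rw [hN]
      ring
    rw [e, pow_add (z) _ (N * k), pow_mul, hz.pow_eq_one, one_pow, mul_one]
  have h4 : ∑ k ∈ range N, z ^ ((k + (n + 1)) ^ 2) = ∑ k ∈ range N, z ^ (k ^ 2) := by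
    have hper : Function.Periodic (fun k : ℕ => z ^ (k ^ 2)) N := by
      intro k
      simp only
      have e : (k + N) ^ 2 = k ^ 2 + N * (2 * k + N) := by ring
      rw [e, pow_add, pow_mul, hz.pow_eq_one, one_pow, mul_one]
    have h5 : ∀ a : ℕ, ∑ k ∈ range N, z ^ ((k + a) ^ 2) = ∑ k ∈ range N, z ^ (k ^ 2) := by
      intro a
      induction a with
      | zero => simp
      | succ a ih =>
        rw [← ih]
        have e1 : ∑ k ∈ range N, z ^ ((k + (a + 1)) ^ 2) + z ^ ((0 + a) ^ 2) =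
            ∑ k ∈ range (N + 1), z ^ ((k + a) ^ 2) := by
          rw [sum_range_succ' (fun k => z ^ ((k + a) ^ 2))]
          congr 1
          refine sum_congr rfl fun k _ => ?_
          congr 2
          ring
        have e2 : ∑ k ∈ range (N + 1), z ^ ((k + a) ^ 2) =
            ∑ k ∈ range N, z ^ ((k + a) ^ 2) + z ^ ((N + a) ^ 2) := sum_range_succ _ _
        have e3 : z ^ ((N + a) ^ 2) = z ^ ((0 + a) ^ 2) := by
          have := hper a
          simp only at this
          rw [add_comm N a, this, zero_add]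
        rw [e3] at e2
        exact add_right_cancel (e1.trans e2)
    exact h5 (n + 1)
  have h6 : z ^ ((n + 1) ^ 2) * ∑ k ∈ range N, z ^ (k * (k + 1)) = ∑ k ∈ range N, z ^ (k ^ 2) := by
    rw [mul_sum, ← h4]
    exact sum_congr rfl fun k _ => h3 k
  rw [← h6, h1]
  -- the right-hand side
  have h7 : z ^ ((n + 1) ^ 2) = ∏ j ∈ range n, z ^ (2 * j + 1) := by
    have h8 : ∀ m : ℕ, ∏ j ∈ range m, z ^ (2 * j + 1) = z ^ (m ^ 2) := by
      intro m
      induction m with
      | zero => simp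
      | succ m ih =>
        rw [prod_range_succ, ih, ← pow_add]
        congr 1
        ring
    rw [h8]
    have e : (n + 1) ^ 2 = n ^ 2 + N := by
      rw [hN]
      ring
    rw [e, pow_add, hz.pow_eq_one, mul_one]
  rw [h7, ← prod_mul_distrib]
  refine prod_congr rfl fun j _ => ?_
  rw [mul_sub, mul_one, ← pow_mul]
  congr 1
  obtain ⟨i, hi⟩ : ∃ i, i = 2 * j + 1 := ⟨_, rfl⟩
  rw [← hi]
  have e : 2 * i = i + i := by ring
  rw [e, pow_add, ← mul_assoc, ← mul_pow, mul_inv_cancel₀ hz0, one_pow, one_mul]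

end Pool.Agent.H468.X15.GS
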